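import Mathlib

open scoped Real

namespace Pool.Agent.Lib.MP_0e93e1_an

/-- The integral mean `(1/2π) ∫_0^{2π} |f(r e^{it})|^2 dt`. -/
noncomputable def mean (f : ℂ → ℂ) (r : ℝ) : ℝ :=
  (1 / (2 * π)) * ∫ t in (0 : ℝ)..(2 * π), ‖f (r * Complex.exp (t * Complex.I))‖ ^ 2

end Pool.Agent.Lib.MP_0e93e1_an
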