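import Mathlib
import Pool.Agent.Lib.MP_0e93e1_an.Mean

-- part Pool.Agent.Lib.MP_0e93e1_an.Basic
section

/-!
The coefficient model of the Hardy space: square summable sequences, evaluated as power series.
-/

open Metric Set Filter Topology
open scoped Real ComplexConjugate

noncomputable section

namespace Pool.Agent.Lib.MP_0e93e1_an

/-- square summable coefficient sequences -/
abbrev L2 : Type := lp (fun _ : ℕ => ℂ) 2

/-- the open unit disc -/
abbrev D : Set ℂ := ball (0 : ℂ) 1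

/-- the power series with coefficients `a` -/
def ev (a : L2) (z : ℂ) : ℂ := ∑' n, a n * z ^ n

/-- the mean of the squared modulus on a circle -/
def av (f : ℂ → ℂ) (r : ℝ) : ℝ := Real.circleAverage (fun z => ‖f z‖ ^ 2) 0 r

lemma mem_D {z : ℂ} : z ∈ D ↔ ‖z‖ < 1 := mem_ball_zero_iff

lemma norm_coeff_le (a : L2) (n : ℕ) : ‖a n‖ ≤ ‖a‖ :=
  lp.norm_apply_le_norm (by norm_num) a n

lemma summable_norm_mul (a : L2) {r : ℝ} (hr0 : 0 ≤ r) (hr : r < 1) :
    Summable fun n => ‖a n‖ * r ^ n := by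
  refine Summable.of_nonneg_of_le (fun n => by positivity) (fun n => ?_)
    ((summable_geometric_of_lt_one hr0 hr).mul_left ‖a‖)
  gcongr
  exact norm_coeff_le a n

lemma summable_ev (a : L2) {z : ℂ} (hz : z ∈ D) : Summable fun n => a n * z ^ n := by
  refine Summable.of_norm ?_
  simpa [norm_mul, norm_pow] using summable_norm_mul a (norm_nonneg z) (mem_D.1 hz)

lemma hasSum_ev (a : L2) {z : ℂ} (hz : z ∈ D) : HasSum (fun n => a n * z ^ n) (ev a z) :=
  (summable_ev a hz).hasSum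

lemma norm_ev_le (a : L2) {z : ℂ} (hz : z ∈ D) : ‖ev a z‖ ≤ (1 - ‖z‖)⁻¹ * ‖a‖ := by
  have h1 : HasSum (fun n => ‖a‖ * ‖z‖ ^ n) (‖a‖ * (1 - ‖z‖)⁻¹) :=
    (hasSum_geometric_of_lt_one (norm_nonneg z) (mem_D.1 hz)).mul_left _
  rw [mul_comm]
  refine tsum_of_norm_bounded h1 fun n => ?_
  rw [norm_mul, norm_pow]
  gcongr
  exact norm_coeff_le a n

lemma ev_add (a b : L2) {z : ℂ} (hz : z ∈ D) : ev (a + b) z = ev a z + ev b z := by
  have := (hasSum_ev a hz).add (hasSum_ev b hz)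
  rw [← this.tsum_eq, ev]
  congr 1
  ext n
  simp [add_mul]

lemma ev_smul (c : ℂ) (a : L2) (z : ℂ) : ev (c • a) z = c * ev a z := by
  simp only [ev, ← tsum_mul_left]
  congr 1
  ext n
  simp [mul_assoc]

/-- point evaluation as a continuous linear functional -/
def evL (z : ℂ) (hz : z ∈ D) : L2 →L[ℂ] ℂ :=
  LinearMap.mkContinuous
    { toFun := fun a => ev a z
      map_add' := fun a b => ev_add a b hz
      map_smul' := fun c a => by simp [ev_smul] }
    ((1 - ‖z‖)⁻¹) (fun a => norm_ev_le a hz)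

@[simp] lemma evL_apply {z : ℂ} (hz : z ∈ D) (a : L2) : evL z hz a = ev a z := rfl

lemma ev_sub (a b : L2) {z : ℂ} (hz : z ∈ D) : ev (a - b) z = ev a z - ev b z :=
  (evL z hz).map_sub a b

lemma ev_zero (z : ℂ) : ev 0 z = 0 := by simp [ev]

lemma ev_single (n : ℕ) (c : ℂ) (z : ℂ) : ev (lp.single 2 n c) z = c * z ^ n := by
  rw [ev, tsum_eq_single n]
  · simp
  · intro m hm
    rw [lp.single_apply_ne _ _ _ hm, zero_mul]

lemma differentiableOn_ev (a : L2) : DifferentiableOn ℂ (ev a) D := by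
  intro z hz
  obtain ⟨r, hr1, hr2⟩ := exists_between (mem_D.1 hz)
  have hr0 : 0 ≤ r := (norm_nonneg z).trans hr1.le
  have h : DifferentiableOn ℂ (fun w => ∑' n, a n * w ^ n) (ball 0 r) := by
    refine Complex.differentiableOn_tsum_of_summable_norm (summable_norm_mul a hr0 hr2)
      (fun n => by fun_prop) isOpen_ball ?_
    intro n w hw
    rw [norm_mul, norm_pow]
    gcongr
    exact (mem_ball_zero_iff.1 hw).le
  exact (h.differentiableAt (isOpen_ball.mem_nhds (mem_ball_zero_iff.2 hr1))).differentiableWithinAt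

lemma continuousOn_ev (a : L2) : ContinuousOn (ev a) D := (differentiableOn_ev a).continuousOn

/-- Parseval's identity on a circle for an absolutely convergent power series. -/
lemma parseval (c : ℕ → ℂ) {r : ℝ} (hr : 0 ≤ r) (hs : Summable fun n => ‖c n‖ * r ^ n)
    (F : ℂ → ℂ) (hF : ∀ z, ‖z‖ = r → HasSum (fun n => c n * z ^ n) (F z)) :
    HasSum (fun n => ‖c n‖ ^ 2 * r ^ (2 * n)) (av F r) := by
  rw [hasSum_iff_tendsto_nat_of_nonneg (fun n => by positivity)]
  have key : ∀ N, ∑ n ∈ Finset.range N, ‖c n‖ ^ 2 * r ^ (2 * n) =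
      av (fun z => ∑ n ∈ Finset.range N, c n * z ^ n) r := by
    intro N
    set p : Polynomial ℂ := ∑ n ∈ Finset.range N, Polynomial.monomial n (c n * r ^ n) with hp
    have h1 := Polynomial.sum_sq_norm_coeff_eq_circleAverage p
    have hcoeff : ∀ i, p.coeff i = if i ∈ Finset.range N then c i * r ^ i else 0 := by
      intro i
      simp [hp, Polynomial.finsetSum_coeff, Polynomial.coeff_monomial]
    have h2 : ∑ i ∈ p.support, ‖p.coeff i‖ ^ 2 =
        ∑ n ∈ Finset.range N, ‖c n‖ ^ 2 * r ^ (2 * n) := by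
      rw [Finset.sum_subset (s₂ := Finset.range N)]
      · refine Finset.sum_congr rfl fun i hi => ?_
        rw [hcoeff, if_pos hi, norm_mul, norm_pow, Complex.norm_real, Real.norm_of_nonneg hr]
        ring
      · intro i hi
        by_contra h
        rw [Polynomial.mem_support_iff, hcoeff, if_neg h] at hi
        exact hi rfl
      · intro i _ hi
        rw [Polynomial.notMem_support_iff.1 hi]
        simp
    rw [← h2, h1, av, Real.circleAverage_eq_circleAverage_zero_one (R := r)]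
    congr 1
    ext z
    simp [hp, Polynomial.eval_finsetSum, mul_pow, mul_assoc]
  simp_rw [key]
  simp only [av, Real.circleAverage_def]
  refine Tendsto.const_smul ?_ _
  set K := ∑' n, ‖c n‖ * r ^ n with hK
  refine intervalIntegral.tendsto_integral_filter_of_dominated_convergence (fun _ => K ^ 2) ?_ ?_
    intervalIntegrable_const ?_
  · refine Eventually.of_forall fun N => Continuous.aestronglyMeasurable ?_
    fun_prop
  · refine Eventually.of_forall fun N => Eventually.of_forall fun t _ => ?_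
    rw [Real.norm_of_nonneg (by positivity)]
    have : ‖∑ n ∈ Finset.range N, c n * circleMap 0 r t ^ n‖ ≤ K := by
      refine (norm_sum_le _ _).trans ?_
      refine le_trans (le_of_eq ?_) (hs.sum_le_tsum (Finset.range N) fun n _ => by positivity)
      refine Finset.sum_congr rfl fun n _ => ?_
      rw [norm_mul, norm_pow, norm_circleMap_zero, abs_of_nonneg hr]
    gcongr
  · refine Eventually.of_forall fun t _ => ?_
    have := (hF (circleMap 0 r t) (by rw [norm_circleMap_zero, abs_of_nonneg hr])).tendsto_sum_nat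
    exact (this.norm).pow 2

lemma hasSum_norm_sq (a : L2) : HasSum (fun n => ‖a n‖ ^ 2) (‖a‖ ^ 2) := by
  have := lp.hasSum_norm (p := 2) (by norm_num) a
  simpa using this

lemma parseval_ev (a : L2) {r : ℝ} (hr0 : 0 ≤ r) (hr : r < 1) :
    HasSum (fun n => ‖a n‖ ^ 2 * r ^ (2 * n)) (av (ev a) r) :=
  parseval a hr0 (summable_norm_mul a hr0 hr) _ fun _ hz => hasSum_ev a (mem_D.2 (hz ▸ hr))

lemma av_ev_le (a : L2) {r : ℝ} (hr0 : 0 ≤ r) (hr : r < 1) : av (ev a) r ≤ ‖a‖ ^ 2 := by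
  refine hasSum_le (fun n => ?_) (parseval_ev a hr0 hr) (hasSum_norm_sq a)
  have : r ^ (2 * n) ≤ 1 := pow_le_one₀ hr0 hr.le
  nlinarith [sq_nonneg ‖a n‖]

lemma tendsto_av_ev (a : L2) : Tendsto (av (ev a)) (𝓝[<] 1) (𝓝 (‖a‖ ^ 2)) := by
  have h1 : Tendsto (fun r : ℝ => ∑' n, ‖a n‖ ^ 2 * r ^ (2 * n)) (𝓝[<] 1)
      (𝓝 (∑' n, ‖a n‖ ^ 2)) := by
    refine tendsto_tsum_of_dominated_convergence (bound := fun n => ‖a n‖ ^ 2)
      (hasSum_norm_sq a).summable (fun n => ?_) ?_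
    · have : Tendsto (fun r : ℝ => ‖a n‖ ^ 2 * r ^ (2 * n)) (𝓝 1) (𝓝 (‖a n‖ ^ 2 * 1 ^ (2 * n))) :=
        Continuous.tendsto (f := fun r : ℝ => ‖a n‖ ^ 2 * r ^ (2 * n)) (by fun_prop) 1
      simpa using this.mono_left nhdsWithin_le_nhds
    · filter_upwards [Ioo_mem_nhdsLT (zero_lt_one' ℝ)] with r hr n
      rw [Real.norm_of_nonneg (by have := hr.1; positivity)]
      have : r ^ (2 * n) ≤ 1 := pow_le_one₀ hr.1.le hr.2.le
      nlinarith [sq_nonneg ‖a n‖]
  rw [(hasSum_norm_sq a).tsum_eq] at h1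
  refine h1.congr' ?_
  filter_upwards [Ioo_mem_nhdsLT (zero_lt_one' ℝ)] with r hr
  exact (parseval_ev a hr.1.le hr.2).tsum_eq

lemma av_congr {f g : ℂ → ℂ} (h : EqOn f g D) {r : ℝ} (hr0 : 0 ≤ r) (hr : r < 1) :
    av f r = av g r := by
  refine Real.circleAverage_congr_sphere fun z hz => ?_
  have : z ∈ D := by
    rw [mem_sphere_zero_iff_norm, abs_of_nonneg hr0] at hz
    exact mem_D.2 (hz ▸ hr)
  simp [h this]

lemma eq_zero_of_ev {a : L2} (h : ∀ z ∈ D, ev a z = 0) : a = 0 := by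
  have h1 : Tendsto (av (ev a)) (𝓝[<] 1) (𝓝 0) := by
    refine tendsto_const_nhds.congr' ?_
    filter_upwards [Ioo_mem_nhdsLT (zero_lt_one' ℝ)] with r hr
    rw [av_congr (g := fun _ => 0) h hr.1.le hr.2]
    simp [av, Real.circleAverage_const]
  have := tendsto_nhds_unique (tendsto_av_ev a) h1
  simpa using this

lemma ext_ev {a b : L2} (h : ∀ z ∈ D, ev a z = ev b z) : a = b := by
  rw [← sub_eq_zero]
  exact eq_zero_of_ev fun z hz => by rw [ev_sub _ _ hz, h z hz, sub_self]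

/-- A holomorphic function with bounded integral means comes from a square summable sequence. -/
lemma exists_of_av_le {F : ℂ → ℂ} (hF : DifferentiableOn ℂ F D) {C : ℝ} (hC0 : 0 ≤ C)
    (hC : ∀ r ∈ Ioo (0 : ℝ) 1, av F r ≤ C ^ 2) :
    ∃ a : L2, ‖a‖ ≤ C ∧ ∀ z ∈ D, ev a z = F z := by
  set c : ℕ → ℂ := fun n => ((n.factorial : ℂ))⁻¹ * iteratedDeriv n F 0 with hc
  have hsum : ∀ z ∈ D, HasSum (fun n => c n * z ^ n) (F z) := by
    intro z hz
    have := Complex.hasSum_taylorSeries_on_ball hF hz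
    have h2 : (fun n => c n * z ^ n) = fun n : ℕ =>
        ((n.factorial : ℂ))⁻¹ • (z - 0) ^ n • iteratedDeriv n F 0 := by
      ext n
      simp only [hc, sub_zero, smul_eq_mul]
      ring
    rw [h2]
    exact this
  have hpars : ∀ r ∈ Ioo (0 : ℝ) 1, HasSum (fun n => ‖c n‖ ^ 2 * r ^ (2 * n)) (av F r) := by
    intro r hr
    refine parseval c hr.1.le ?_ F fun z hz => hsum z (mem_D.2 (hz ▸ hr.2))
    have h1 := (hsum r (mem_D.2 (by simpa [abs_of_pos hr.1] using hr.2))).summable.norm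
    simpa [norm_mul, norm_pow, abs_of_pos hr.1] using h1
  have hfin : ∀ s : Finset ℕ, ∑ n ∈ s, ‖c n‖ ^ 2 ≤ C ^ 2 := by
    intro s
    have h1 : Tendsto (fun r : ℝ => ∑ n ∈ s, ‖c n‖ ^ 2 * r ^ (2 * n)) (𝓝[<] 1)
        (𝓝 (∑ n ∈ s, ‖c n‖ ^ 2)) := by
      have : Tendsto (fun r : ℝ => ∑ n ∈ s, ‖c n‖ ^ 2 * r ^ (2 * n)) (𝓝 1)
          (𝓝 (∑ n ∈ s, ‖c n‖ ^ 2 * 1 ^ (2 * n))) :=
        Continuous.tendsto (f := fun r : ℝ => ∑ n ∈ s, ‖c n‖ ^ 2 * r ^ (2 * n)) (by fun_prop) 1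
      simpa using this.mono_left nhdsWithin_le_nhds
    refine le_of_tendsto h1 ?_
    filter_upwards [Ioo_mem_nhdsLT (zero_lt_one' ℝ)] with r hr
    refine le_trans ?_ (hC r hr)
    exact sum_le_hasSum s (fun n _ => by have := hr.1; positivity) (hpars r hr)
  have hmem : Memℓp c 2 := memℓp_gen' (C := C ^ 2) (by simpa using hfin)
  refine ⟨⟨c, hmem⟩, ?_, fun z hz => (hsum z hz).tsum_eq⟩
  refine lp.norm_le_of_forall_sum_le (by norm_num) hC0 fun s => ?_
  simpa using hfin s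

lemma circleIntegrable_sq {f : ℂ → ℂ} (hf : ContinuousOn f D) {r : ℝ} (hr0 : 0 ≤ r) (hr : r < 1) :
    CircleIntegrable (fun z => ‖f z‖ ^ 2) 0 r := by
  refine ContinuousOn.circleIntegrable hr0 ?_
  refine ((hf.mono ?_).norm).pow 2
  intro z hz
  rw [mem_sphere_zero_iff_norm] at hz
  exact mem_D.2 (hz ▸ hr)

lemma av_mul_le {g f : ℂ → ℂ} (hg : ContinuousOn g D) (hf : ContinuousOn f D) {C : ℝ}
    (hC : ∀ z ∈ D, ‖g z‖ ≤ C) {r : ℝ} (hr0 : 0 ≤ r) (hr : r < 1) :
    av (fun z => g z * f z) r ≤ C ^ 2 * av f r := by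
  have h1 : C ^ 2 * av f r = Real.circleAverage (fun z => C ^ 2 * ‖f z‖ ^ 2) 0 r := by
    rw [av, ← smul_eq_mul, ← Real.circleAverage_fun_smul]
    rfl
  rw [h1, av]
  refine Real.circleAverage_mono (circleIntegrable_sq (hg.mul hf) hr0 hr) ?_ ?_
  · exact (circleIntegrable_sq hf hr0 hr).const_smul (a := C ^ 2)
  · intro z hz
    rw [mem_sphere_zero_iff_norm, abs_of_nonneg hr0] at hz
    have hzD : z ∈ D := mem_D.2 (hz ▸ hr)
    rw [norm_mul, mul_pow]
    gcongr
    exact hC z hzD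

end Pool.Agent.Lib.MP_0e93e1_an
end
end

-- part Pool.Agent.Lib.MP_0e93e1_an.Ops
section

/-!
Weighted composition operators in the coefficient model, multipliers, inner multipliers.
-/

open Metric Set Filter Topology
open scoped Real ComplexConjugate

noncomputable section

namespace Pool.Agent.Lib.MP_0e93e1_an

/-- `T` acts as `f ↦ w · (f ∘ φ)`. -/
def IsWC (T : L2 →L[ℂ] L2) (w φ : ℂ → ℂ) : Prop :=
  ∀ a, ∀ z ∈ D, ev (T a) z = w z * ev a (φ z)

lemma exists_isWC {w φ : ℂ → ℂ} (hφ : MapsTo φ D D) {C : ℝ} (hC : 0 ≤ C)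
    (h : ∀ a : L2, ∃ b : L2, ‖b‖ ≤ C * ‖a‖ ∧ ∀ z ∈ D, ev b z = w z * ev a (φ z)) :
    ∃ T : L2 →L[ℂ] L2, ‖T‖ ≤ C ∧ IsWC T w φ := by
  choose F hF1 hF2 using h
  let L : L2 →ₗ[ℂ] L2 :=
    { toFun := F
      map_add' := fun a b => ext_ev fun z hz => by
        rw [ev_add _ _ hz, hF2 _ _ hz, hF2 _ _ hz, hF2 _ _ hz, ev_add _ _ (hφ hz), mul_add]
      map_smul' := fun c a => ext_ev fun z hz => by
        rw [RingHom.id_apply, ev_smul, hF2 _ _ hz, hF2 _ _ hz, ev_smul]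
        ring }
  exact ⟨L.mkContinuous C hF1, L.mkContinuous_norm_le hC hF1, fun a z hz => hF2 a z hz⟩

lemma IsWC.congr {T : L2 →L[ℂ] L2} {w φ w' φ' : ℂ → ℂ} (h : IsWC T w φ) (hw : EqOn w w' D)
    (hφ : EqOn φ φ' D) : IsWC T w' φ' := fun a z hz => by rw [h a z hz, hw hz, hφ hz]

lemma IsWC.unique {T T' : L2 →L[ℂ] L2} {w φ w' φ' : ℂ → ℂ} (h : IsWC T w φ) (h' : IsWC T' w' φ')
    (hw : EqOn w w' D) (hφ : EqOn φ φ' D) : T = T' := by
  ext1 a
  exact ext_ev fun z hz => by rw [h a z hz, h' a z hz, hw hz, hφ hz]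

lemma IsWC.mul {T T' : L2 →L[ℂ] L2} {w φ w' φ' : ℂ → ℂ} (h : IsWC T w φ) (h' : IsWC T' w' φ')
    (hφ : MapsTo φ D D) : IsWC (T * T') (fun z => w z * w' (φ z)) (fun z => φ' (φ z)) := by
  intro a z hz
  rw [mul_apply_eq_comp, h _ z hz, h' _ _ (hφ hz), mul_assoc]

lemma isWC_one : IsWC 1 (fun _ => 1) (fun z => z) := fun a z _ => by simp

lemma IsWC.smul {T : L2 →L[ℂ] L2} {w φ : ℂ → ℂ} (h : IsWC T w φ) (c : ℂ) :
    IsWC (c • T) (fun z => c * w z) φ := fun a z hz => by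
  rw [smul_apply, ev_smul, h a z hz, mul_assoc]

lemma IsWC.pow {T : L2 →L[ℂ] L2} {w φ : ℂ → ℂ} (h : IsWC T w φ) (hφ : MapsTo φ D D) (n : ℕ) :
    IsWC (T ^ n) (fun z => ∏ k ∈ Finset.range n, w (φ^[k] z)) (φ^[n]) := by
  induction n with
  | zero => exact isWC_one.congr (fun z _ => by simp) (fun z _ => rfl)
  | succ n ih =>
    rw [pow_succ]
    refine (ih.mul h (hφ.iterate n)).congr (fun z _ => ?_) (fun z _ => ?_)
    · simp [Finset.prod_range_succ]
    · simp [Function.iterate_succ_apply']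

/-- multiplication operators -/
lemma exists_mul {g : ℂ → ℂ} (hg : DifferentiableOn ℂ g D) {C : ℝ} (hC : ∀ z ∈ D, ‖g z‖ ≤ C) :
    ∃ M : L2 →L[ℂ] L2, ‖M‖ ≤ C ∧ IsWC M g (fun z => z) := by
  have hC0 : 0 ≤ C := (norm_nonneg _).trans (hC 0 (mem_D.2 (by simp)))
  refine exists_isWC (fun z hz => hz) hC0 fun a => ?_
  refine exists_of_av_le (F := fun z => g z * ev a z) (hg.mul (differentiableOn_ev a))
    (by positivity) fun r hr => ?_
  refine (av_mul_le hg.continuousOn (continuousOn_ev a) hC hr.1.le hr.2).trans ?_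
  rw [mul_pow]
  gcongr
  exact av_ev_le a hr.1.le hr.2

lemma IsWC.norm_le_of_mul {M : L2 →L[ℂ] L2} {g : ℂ → ℂ} (h : IsWC M g (fun z => z))
    (hg : DifferentiableOn ℂ g D) {C : ℝ} (hC : ∀ z ∈ D, ‖g z‖ ≤ C) : ‖M‖ ≤ C := by
  obtain ⟨M', h1, h2⟩ := exists_mul hg hC
  rwa [h.unique h2 (fun _ _ => rfl) (fun _ _ => rfl)]

/-- the constant function one -/
def e0 : L2 := lp.single 2 0 1

@[simp] lemma ev_e0 (z : ℂ) : ev e0 z = 1 := by simp [e0, ev_single]

lemma e0_ne_zero : e0 ≠ 0 := fun h => by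
  have := ev_e0 0
  rw [h, ev_zero] at this
  exact zero_ne_one this

instance : Nontrivial L2 := ⟨⟨e0, 0, e0_ne_zero⟩⟩

lemma norm_evL_pos {z : ℂ} (hz : z ∈ D) : 0 < ‖evL z hz‖ := by
  rw [norm_pos_iff]
  intro h
  have : evL z hz e0 = 1 := ev_e0 z
  rw [h] at this
  simp at this

lemma IsWC.evL_comp {M : L2 →L[ℂ] L2} {g : ℂ → ℂ} (h : IsWC M g (fun z => z)) {z : ℂ}
    (hz : z ∈ D) : (evL z hz).comp M = g z • evL z hz := by
  ext1 a
  simp [h a z hz]

lemma IsWC.norm_apply_le {M : L2 →L[ℂ] L2} {g : ℂ → ℂ} (h : IsWC M g (fun z => z)) {z : ℂ}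
    (hz : z ∈ D) : ‖g z‖ ≤ ‖M‖ := by
  have h1 := ContinuousLinearMap.opNorm_comp_le (evL z hz) M
  rw [h.evL_comp hz, norm_smul, mul_comm] at h1
  exact le_of_mul_le_mul_left h1 (norm_evL_pos hz)

lemma IsWC.one_le_of_inv {M N : L2 →L[ℂ] L2} {g : ℂ → ℂ} (h : IsWC M g (fun z => z))
    (hN : M * N = 1) {z : ℂ} (hz : z ∈ D) : 1 ≤ ‖g z‖ * ‖N‖ := by
  have h1 : evL z hz = g z • (evL z hz).comp N := by
    ext1 a
    have : M (N a) = a := by rw [← mul_apply_eq_comp, hN]; rfl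
    have h2 := h (N a) z hz
    rw [this] at h2
    simpa using h2
  have h2 : ‖evL z hz‖ ≤ ‖g z‖ * (‖evL z hz‖ * ‖N‖) := by
    calc ‖evL z hz‖ = ‖g z • (evL z hz).comp N‖ := by rw [← h1]
      _ = ‖g z‖ * ‖(evL z hz).comp N‖ := norm_smul _ _
      _ ≤ _ := by gcongr; exact ContinuousLinearMap.opNorm_comp_le _ _
  have h3 := norm_evL_pos hz
  nlinarith

/-- A multiplier bounded below is invertible. -/
lemma IsWC.exists_inv {M : L2 →L[ℂ] L2} {g : ℂ → ℂ} (h : IsWC M g (fun z => z))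
    (hg : DifferentiableOn ℂ g D) {c : ℝ} (hc : 0 < c) (hgc : ∀ z ∈ D, c ≤ ‖g z‖) :
    ∃ N : L2 →L[ℂ] L2, ‖N‖ ≤ c⁻¹ ∧ M * N = 1 ∧ N * M = 1 := by
  have hne : ∀ z ∈ D, g z ≠ 0 := fun z hz h0 => by
    have := hgc z hz
    rw [h0, norm_zero] at this
    linarith
  obtain ⟨N, hN1, hN2⟩ := exists_mul (g := fun z => (g z)⁻¹) (hg.inv hne) (C := c⁻¹)
    (fun z hz => by rw [norm_inv]; exact inv_anti₀ hc (hgc z hz))
  refine ⟨N, hN1, ?_, ?_⟩
  · exact (h.mul hN2 (fun _ hz => hz)).unique isWC_one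
      (fun z hz => mul_inv_cancel₀ (hne z hz)) (fun _ _ => rfl)
  · exact (hN2.mul h (fun _ hz => hz)).unique isWC_one
      (fun z hz => inv_mul_cancel₀ (hne z hz)) (fun _ _ => rfl)

lemma av_sub_le {h f : ℂ → ℂ} (hh : ContinuousOn h D) (hf : ContinuousOn f D)
    (hh1 : ∀ z ∈ D, ‖h z‖ ≤ 1) {K : ℝ} (hK : ∀ z ∈ D, ‖f z‖ ≤ K) {r : ℝ} (hr0 : 0 ≤ r)
    (hr : r < 1) : av f r - K ^ 2 * (1 - av h r) ≤ av (fun z => h z * f z) r := by
  have i1 := circleIntegrable_sq hf hr0 hr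
  have i2 := circleIntegrable_sq hh hr0 hr
  have i3 : CircleIntegrable (fun z => ‖h z * f z‖ ^ 2) 0 r :=
    circleIntegrable_sq (hh.mul hf) hr0 hr
  have i4 : CircleIntegrable (fun z => K ^ 2 * ‖h z‖ ^ 2) 0 r := i2.const_smul (a := K ^ 2)
  have e1 : K ^ 2 * av h r = Real.circleAverage (fun z => K ^ 2 * ‖h z‖ ^ 2) 0 r := by
    rw [av, ← smul_eq_mul, ← Real.circleAverage_fun_smul]
    rfl
  have e2 : av f r + K ^ 2 * av h r =
      Real.circleAverage (fun z => ‖f z‖ ^ 2 + K ^ 2 * ‖h z‖ ^ 2) 0 r := by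
    rw [Real.circleAverage_fun_add i1 i4, e1, av]
  have e3 : av (fun z => h z * f z) r + K ^ 2 =
      Real.circleAverage (fun z => ‖h z * f z‖ ^ 2 + K ^ 2) 0 r := by
    rw [Real.circleAverage_fun_add i3 (circleIntegrable_const _ _ _), Real.circleAverage_const, av]
  have : av f r + K ^ 2 * av h r ≤ av (fun z => h z * f z) r + K ^ 2 := by
    rw [e2, e3]
    refine Real.circleAverage_mono (i1.add i4) (i3.add (circleIntegrable_const _ _ _)) ?_
    intro z hz
    rw [mem_sphere_zero_iff_norm, abs_of_nonneg hr0] at hz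
    have hzD : z ∈ D := mem_D.2 (hz ▸ hr)
    have a1 : ‖h z‖ ^ 2 ≤ 1 := pow_le_one₀ (norm_nonneg _) (hh1 z hzD)
    have a2 : ‖f z‖ ^ 2 ≤ K ^ 2 := by gcongr; exact hK z hzD
    simp only [norm_mul, mul_pow]
    nlinarith
  linarith

/-- Multiplication by an inner function does not decrease norms. -/
lemma IsWC.le_norm_of_inner {M : L2 →L[ℂ] L2} {h : ℂ → ℂ} (hM : IsWC M h (fun z => z))
    (hh : ContinuousOn h D) (hh1 : ∀ z ∈ D, ‖h z‖ ≤ 1) (hlim : Tendsto (av h) (𝓝[<] 1) (𝓝 1))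
    (a : L2) : ‖a‖ ≤ ‖M a‖ := by
  have hb : ∀ b : L2, (∃ K, ∀ z ∈ D, ‖ev b z‖ ≤ K) → ‖b‖ ≤ ‖M b‖ := by
    rintro b ⟨K, hK⟩
    have h1 : Tendsto (fun r => av (ev b) r - K ^ 2 * (1 - av h r)) (𝓝[<] 1)
        (𝓝 (‖b‖ ^ 2 - K ^ 2 * (1 - 1))) :=
      (tendsto_av_ev b).sub ((tendsto_const_nhds.sub hlim).const_mul _)
    have h2 : ‖b‖ ^ 2 - K ^ 2 * (1 - 1) ≤ ‖M b‖ ^ 2 := by
      refine le_of_tendsto h1 ?_
      filter_upwards [Ioo_mem_nhdsLT (zero_lt_one' ℝ)] with r hr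
      refine (av_sub_le hh (continuousOn_ev b) hh1 hK hr.1.le hr.2).trans ?_
      rw [← av_congr (f := ev (M b)) (fun z hz => hM b z hz) hr.1.le hr.2]
      exact av_ev_le _ hr.1.le hr.2
    have h3 : ‖b‖ ^ 2 ≤ ‖M b‖ ^ 2 := by simpa using h2
    exact (pow_le_pow_iff_left₀ (norm_nonneg _) (norm_nonneg _) two_ne_zero).1 h3
  have hs := lp.hasSum_single (p := 2) (by norm_num) a
  have h1 : Tendsto (fun s : Finset ℕ => ‖∑ i ∈ s, (lp.single 2 i (a i) : L2)‖) atTop (𝓝 ‖a‖) :=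
    Tendsto.norm hs
  have h2 : Tendsto (fun s : Finset ℕ => ‖M (∑ i ∈ s, (lp.single 2 i (a i) : L2))‖) atTop
      (𝓝 ‖M a‖) := Tendsto.norm ((M.continuous.tendsto a).comp hs)
  refine le_of_tendsto_of_tendsto' h1 h2 fun s => hb _ ⟨∑ i ∈ s, ‖a i‖, fun z hz => ?_⟩
  rw [← evL_apply hz, map_sum]
  refine norm_sum_le_of_le _ fun i _ => ?_
  rw [evL_apply, ev_single, norm_mul, norm_pow]
  have : ‖z‖ ^ i ≤ 1 := pow_le_one₀ (norm_nonneg _) (mem_D.1 hz).le
  nlinarith [norm_nonneg (a i)]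

/-- A sufficient condition for being inner. -/
lemma tendsto_av_of_boundary {h : ℂ → ℂ} (hh : ContinuousOn h D) (hh1 : ∀ z ∈ D, ‖h z‖ ≤ 1)
    (p : ℂ) (hb : ∀ ζ, ‖ζ‖ = 1 → ζ ≠ p → ContinuousAt h ζ ∧ ‖h ζ‖ = 1) :
    Tendsto (av h) (𝓝[<] 1) (𝓝 1) := by
  have hmem : ∀ r ∈ Ioo (0 : ℝ) 1, ∀ t, circleMap 0 r t ∈ D := fun r hr t =>
    mem_D.2 (by rw [norm_circleMap_zero, abs_of_pos hr.1]; exact hr.2)
  have key : Tendsto (fun r => ∫ t in (0 : ℝ)..2 * π, ‖h (circleMap 0 r t)‖ ^ 2) (𝓝[<] 1)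
      (𝓝 (∫ _ in (0 : ℝ)..2 * π, (1 : ℝ))) := by
    refine intervalIntegral.tendsto_integral_filter_of_dominated_convergence (fun _ => 1) ?_ ?_
      intervalIntegrable_const ?_
    · filter_upwards [Ioo_mem_nhdsLT (zero_lt_one' ℝ)] with r hr
      refine Continuous.aestronglyMeasurable ?_
      exact ((hh.comp_continuous (continuous_circleMap 0 r) (hmem r hr)).norm).pow 2
    · filter_upwards [Ioo_mem_nhdsLT (zero_lt_one' ℝ)] with r hr
      refine Eventually.of_forall fun t _ => ?_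
      rw [Real.norm_of_nonneg (by positivity)]
      exact pow_le_one₀ (norm_nonneg _) (hh1 _ (hmem r hr t))
    · have hc : (circleMap 0 1 ⁻¹' {p}).Countable :=
        (Set.countable_singleton p).preimage_circleMap 0 one_ne_zero
      filter_upwards [hc.ae_notMem MeasureTheory.volume] with t ht _
      obtain ⟨h1, h2⟩ := hb (circleMap 0 1 t) (by simp) ht
      have h3 : Tendsto (fun r : ℝ => circleMap 0 r t) (𝓝 1) (𝓝 (circleMap 0 1 t)) :=
        Continuous.tendsto (f := fun r : ℝ => circleMap 0 r t)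
          (by simp only [circleMap]; fun_prop) 1
      have h4 := ((h1.tendsto.comp h3).norm.pow 2).mono_left (nhdsWithin_le_nhds (s := Iio 1))
      simpa [h2] using h4
  have := key.const_smul (2 * π)⁻¹
  have h2 : (2 * π)⁻¹ • (∫ _ in (0 : ℝ)..2 * π, (1 : ℝ)) = 1 := by
    have := Real.pi_pos
    simp
    field_simp
  rw [h2] at this
  exact this

/-- An operator commuting with the shift is a multiplier; if idempotent it is trivial. -/
lemma idem_trivial {S P : L2 →L[ℂ] L2} (hS : IsWC S (fun z => z) (fun z => z))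
    (hc : P * S = S * P) (hP : P * P = P) : P = 0 ∨ P = 1 := by
  set p := P e0 with hp
  have hSn : ∀ n : ℕ, IsWC (S ^ n) (fun z => z ^ n) (fun z => z) := fun n =>
    (hS.pow (fun _ hz => hz) n).congr
      (fun z _ => by simp [Function.iterate_fixed (f := fun z : ℂ => z) rfl])
      (fun z _ => Function.iterate_fixed rfl n)
  have hsingle : ∀ (n : ℕ) (c : ℂ), (lp.single 2 n c : L2) = c • (S ^ n) e0 := by
    intro n c
    refine ext_ev fun z hz => ?_
    have := hSn n e0 z hz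
    rw [ev_single, ev_smul, this]
    simp
  have hcomm : ∀ n : ℕ, P * S ^ n = S ^ n * P := fun n => (Commute.pow_right hc n).eq
  have hW : IsWC P (ev p) (fun z => z) := by
    intro a z hz
    have hs := lp.hasSum_single (p := 2) (by norm_num) a
    have h1 := ((evL z hz).comp P).hasSum hs
    have h2 := (hasSum_ev a hz).mul_left (ev p z)
    have h3 : (fun n => ((evL z hz).comp P) (lp.single 2 n (a n))) =
        fun n => ev p z * (a n * z ^ n) := by
      ext n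
      have h4 := hSn n p z hz
      rw [ContinuousLinearMap.comp_apply, hsingle, map_smul, ← mul_apply_eq_comp,
        hcomm, mul_apply_eq_comp, map_smul, evL_apply, ← hp, h4, smul_eq_mul]
      ring
    rw [h3] at h1
    exact h1.unique h2
  have hpp : ∀ z ∈ D, ev p z * (ev p z - 1) = 0 := by
    intro z hz
    have h1 : P p = p := by rw [hp, ← mul_apply_eq_comp, hP]
    have h2 := hW p z hz
    rw [h1] at h2
    linear_combination -h2
  have han : AnalyticOnNhd ℂ (ev p) D := (differentiableOn_ev p).analyticOnNhd isOpen_ball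
  have hpre : IsPreconnected D := (convex_ball (0 : ℂ) 1).isPreconnected
  rcases han.eq_zero_or_eq_zero_of_mul_eq_zero (han.sub analyticOnNhd_const) hpp hpre with h | h
  · left
    ext1 a
    exact eq_zero_of_ev fun z hz => by rw [hW a z hz, h z hz, zero_mul]
  · right
    exact hW.unique isWC_one (fun z hz => sub_eq_zero.1 (h z hz)) (fun _ _ => rfl)

end Pool.Agent.Lib.MP_0e93e1_an
end
end

-- part Pool.Agent.Lib.MP_0e93e1_an.Mob
section

/-!
Disc automorphisms and the associated unitary weighted composition operators.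
-/

open Metric Set Filter Topology
open scoped Real ComplexConjugate InnerProductSpace

noncomputable section

namespace Pool.Agent.Lib.MP_0e93e1_an

/-- the disc automorphism with parameters `l`, `a` -/
def mob (l a z : ℂ) : ℂ := l * (a - z) / (1 - conj a * z)

/-- the normalised reproducing kernel at `a` -/
def sk (a z : ℂ) : ℂ := (√(1 - ‖a‖ ^ 2) : ℝ) / (1 - conj a * z)

lemma norm_den_ge {a z : ℂ} (hz : ‖z‖ ≤ 1) : 1 - ‖a‖ ≤ ‖1 - conj a * z‖ := by
  have h1 : ‖conj a * z‖ ≤ ‖a‖ := by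
    rw [norm_mul, Complex.norm_conj]
    nlinarith [norm_nonneg a]
  have := norm_sub_norm_le (1 : ℂ) (conj a * z)
  rw [norm_one] at this
  linarith

lemma norm_den_le {a z : ℂ} (ha : ‖a‖ < 1) (hz : ‖z‖ ≤ 1) : ‖1 - conj a * z‖ ≤ 2 := by
  have h1 : ‖conj a * z‖ ≤ ‖a‖ := by
    rw [norm_mul, Complex.norm_conj]
    nlinarith [norm_nonneg a]
  have := norm_sub_le (1 : ℂ) (conj a * z)
  rw [norm_one] at this
  linarith

lemma den_ne {a z : ℂ} (ha : ‖a‖ < 1) (hz : ‖z‖ ≤ 1) : 1 - conj a * z ≠ 0 := by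
  intro h
  have := norm_den_ge (a := a) hz
  rw [h, norm_zero] at this
  linarith

lemma norm_sq_identity (a z : ℂ) :
    ‖1 - conj a * z‖ ^ 2 - ‖a - z‖ ^ 2 = (1 - ‖a‖ ^ 2) * (1 - ‖z‖ ^ 2) := by
  simp only [Complex.sq_norm, Complex.normSq_apply, Complex.sub_re, Complex.sub_im, Complex.mul_re,
    Complex.mul_im, Complex.conj_re, Complex.conj_im, Complex.one_re, Complex.one_im]
  ring

lemma one_sub_sq_pos {a : ℂ} (ha : ‖a‖ < 1) : 0 < 1 - ‖a‖ ^ 2 := by
  nlinarith [norm_nonneg a]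

lemma norm_mob {l : ℂ} (hl : ‖l‖ = 1) (a z : ℂ) : ‖mob l a z‖ = ‖a - z‖ / ‖1 - conj a * z‖ := by
  rw [mob, norm_div, norm_mul, hl, one_mul]

lemma mob_mapsTo {l a : ℂ} (hl : ‖l‖ = 1) (ha : ‖a‖ < 1) : MapsTo (mob l a) D D := by
  intro z hz
  have hz' := mem_D.1 hz
  rw [mem_D, norm_mob hl, div_lt_one (norm_pos_iff.2 (den_ne ha hz'.le))]
  have h1 := norm_sq_identity a z
  have h2 := mul_pos (one_sub_sq_pos ha) (one_sub_sq_pos hz')
  exact lt_of_pow_lt_pow_left₀ 2 (norm_nonneg _) (by linarith)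

lemma norm_mob_of_sphere {l a z : ℂ} (hl : ‖l‖ = 1) (ha : ‖a‖ < 1) (hz : ‖z‖ = 1) :
    ‖mob l a z‖ = 1 := by
  rw [norm_mob hl, div_eq_one_iff_eq (norm_ne_zero_iff.2 (den_ne ha hz.le))]
  have h1 := norm_sq_identity a z
  rw [hz] at h1
  exact (pow_left_inj₀ (norm_nonneg _) (norm_nonneg _) two_ne_zero).1 (by linarith)

lemma hasDerivAt_mob {l a z : ℂ} (ha : ‖a‖ < 1) (hz : ‖z‖ ≤ 1) :
    HasDerivAt (mob l a) (l * (a * conj a - 1) / (1 - conj a * z) ^ 2) z := by
  have h1 : HasDerivAt (fun z => l * (a - z)) (l * (0 - 1)) z :=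
    ((hasDerivAt_const z a).sub (hasDerivAt_id z)).const_mul l
  have h2 : HasDerivAt (fun z => 1 - conj a * z) (0 - conj a * 1) z :=
    (hasDerivAt_const z 1).sub ((hasDerivAt_id z).const_mul _)
  have h3 := h1.div h2 (den_ne ha hz)
  refine HasDerivAt.congr_deriv (f := mob l a) h3 ?_
  ring

lemma differentiableOn_mob {l a : ℂ} (ha : ‖a‖ < 1) : DifferentiableOn ℂ (mob l a) D :=
  fun _ hz => (hasDerivAt_mob ha (mem_D.1 hz).le).differentiableAt.differentiableWithinAt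

lemma mul_conj_eq (a : ℂ) : a * conj a = ((‖a‖ ^ 2 : ℝ) : ℂ) := by
  rw [Complex.mul_conj, Complex.normSq_eq_norm_sq]

lemma norm_sk_sq {a : ℂ} (ha : ‖a‖ < 1) (z : ℂ) :
    ‖sk a z‖ ^ 2 = (1 - ‖a‖ ^ 2) / ‖1 - conj a * z‖ ^ 2 := by
  rw [sk, norm_div, div_pow, Complex.norm_real, Real.norm_of_nonneg (Real.sqrt_nonneg _),
    Real.sq_sqrt (one_sub_sq_pos ha).le]

lemma norm_deriv_mob {l a z : ℂ} (hl : ‖l‖ = 1) (ha : ‖a‖ < 1) :
    ‖l * (a * conj a - 1) / (1 - conj a * z) ^ 2‖ = ‖sk a z‖ ^ 2 := by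
  rw [norm_sk_sq ha, norm_div, norm_mul, hl, one_mul, norm_pow, mul_conj_eq]
  congr 1
  rw [← Complex.ofReal_one, ← Complex.ofReal_sub, Complex.norm_real, Real.norm_eq_abs,
    abs_sub_comm, abs_of_pos (one_sub_sq_pos ha)]

lemma differentiableOn_sk {a : ℂ} (ha : ‖a‖ < 1) : DifferentiableOn ℂ (sk a) D := by
  refine DifferentiableOn.div (differentiableOn_const _) (by fun_prop) fun z hz => ?_
  exact den_ne ha (mem_D.1 hz).le

lemma sk_ne_zero {a z : ℂ} (ha : ‖a‖ < 1) (hz : z ∈ D) : sk a z ≠ 0 := by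
  refine div_ne_zero ?_ (den_ne ha (mem_D.1 hz).le)
  exact_mod_cast (Real.sqrt_pos.2 (one_sub_sq_pos ha)).ne'

lemma norm_sk_inv_le {a z : ℂ} (ha : ‖a‖ < 1) (hz : z ∈ D) :
    ‖(sk a z)⁻¹‖ ≤ 2 / √(1 - ‖a‖ ^ 2) := by
  rw [sk, inv_div, norm_div, Complex.norm_real, Real.norm_of_nonneg (Real.sqrt_nonneg _)]
  gcongr
  exact norm_den_le ha (mem_D.1 hz).le

lemma mul_conj_of_norm_one {l : ℂ} (hl : ‖l‖ = 1) : l * conj l = 1 := by
  rw [mul_conj_eq, hl]; simp

lemma one_sub_mul_conj_ne {a : ℂ} (ha : ‖a‖ < 1) : 1 - conj a * a ≠ 0 := den_ne ha ha.le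

lemma mob_mob {l a z : ℂ} (hl : ‖l‖ = 1) (ha : ‖a‖ < 1) (hz : z ∈ D) :
    mob (conj l) (l * a) (mob l a z) = z := by
  have h1 := den_ne ha (mem_D.1 hz).le
  have h2 := mul_conj_of_norm_one hl
  have h3 := one_sub_mul_conj_ne ha
  have h4 : 1 - conj (l * a) * (l * (a - z) / (1 - conj a * z)) =
      (1 - conj a * a) / (1 - conj a * z) := by
    rw [map_mul]
    field_simp
    linear_combination (-(conj a) * (a - z)) * h2
  have h5 : l * a - l * (a - z) / (1 - conj a * z) =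
      l * z * ((1 - conj a * a) / (1 - conj a * z)) := by
    rw [← mul_div_assoc, eq_div_iff h1, sub_mul, div_mul_cancel₀ _ h1]
    ring
  rw [mob, mob, h4, h5, ← mul_assoc, mul_div_assoc, div_self (div_ne_zero h3 h1)]
  linear_combination z * h2

lemma sk_mul_sk {l a z : ℂ} (hl : ‖l‖ = 1) (ha : ‖a‖ < 1) (hz : z ∈ D) :
    sk a z * sk (l * a) (mob l a z) = 1 := by
  have h1 := den_ne ha (mem_D.1 hz).le
  have h2 := mul_conj_of_norm_one hl
  have h3 := one_sub_mul_conj_ne ha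
  have h4 : 1 - conj (l * a) * (l * (a - z) / (1 - conj a * z)) =
      (1 - conj a * a) / (1 - conj a * z) := by
    rw [map_mul]
    field_simp
    linear_combination (-(conj a) * (a - z)) * h2
  have h5 : ((√(1 - ‖a‖ ^ 2) : ℝ) : ℂ) ^ 2 = 1 - conj a * a := by
    rw [← Complex.ofReal_pow, Real.sq_sqrt (one_sub_sq_pos ha).le, mul_comm, mul_conj_eq]
    push_cast
    ring
  rw [sk, sk, mob, h4, norm_mul, hl, one_mul]
  field_simp
  exact h5

/-- The multiplication operator by a disc automorphism is an isometry. -/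
lemma exists_mul_mob {l a : ℂ} (hl : ‖l‖ = 1) (ha : ‖a‖ < 1) :
    ∃ B : L2 →L[ℂ] L2, (∀ x, ‖B x‖ = ‖x‖) ∧ IsWC B (mob l a) (fun z => z) := by
  have h1 : ∀ z ∈ D, ‖mob l a z‖ ≤ 1 := fun z hz => (mem_D.1 (mob_mapsTo hl ha hz)).le
  obtain ⟨B, hB1, hB2⟩ := exists_mul (differentiableOn_mob (l := l) ha) h1
  refine ⟨B, fun x => le_antisymm ?_ ?_, hB2⟩
  · simpa using B.le_of_opNorm_le hB1 x
  · refine hB2.le_norm_of_inner (differentiableOn_mob ha).continuousOn h1 ?_ x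
    refine tendsto_av_of_boundary (differentiableOn_mob ha).continuousOn h1 0 fun ζ hζ _ => ?_
    exact ⟨(hasDerivAt_mob ha hζ.le).continuousAt, norm_mob_of_sphere hl ha hζ⟩

/-- the reproducing kernel -/
lemma exists_kernel {a : ℂ} (ha : ‖a‖ < 1) :
    ∃ k : L2, (∀ z ∈ D, ev k z = (1 - conj a * z)⁻¹) ∧ ∀ x : L2, ⟪k, x⟫_ℂ = ev x a := by
  have hmem : Memℓp (fun n : ℕ => conj a ^ n) 2 := by
    refine memℓp_gen ?_
    have h2 : ‖a‖ ^ 2 < 1 := by linarith [one_sub_sq_pos ha]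
    have := summable_geometric_of_lt_one (sq_nonneg ‖a‖) h2
    refine this.congr fun n => ?_
    simp [← pow_mul, mul_comm]
  refine ⟨⟨_, hmem⟩, fun z hz => ?_, fun x => ?_⟩
  · have h1 : ‖conj a * z‖ < 1 := by
      rw [norm_mul, Complex.norm_conj]
      nlinarith [norm_nonneg a, norm_nonneg z, mem_D.1 hz]
    rw [← tsum_geometric_of_norm_lt_one h1, ev]
    congr 1
    ext n
    rw [mul_pow]
  · rw [lp.inner_eq_tsum, ev]
    congr 1
    ext n
    simp

lemma exists_contraction {l a : ℂ} (hl : ‖l‖ = 1) (ha : ‖a‖ < 1) :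
    ∃ U : L2 →L[ℂ] L2, (∀ x, ‖U x‖ = ‖x‖) ∧ IsWC U (sk a) (mob l a) := by
  obtain ⟨B, hB1, hB2⟩ := exists_mul_mob hl ha
  obtain ⟨k, hk1, hk2⟩ := exists_kernel ha
  set c : ℂ := ((√(1 - ‖a‖ ^ 2) : ℝ) : ℂ) with hc
  have haD : a ∈ D := mem_D.2 ha
  have hBn : ∀ n : ℕ, IsWC (B ^ n) (fun z => mob l a z ^ n) (fun z => z) := fun n =>
    (hB2.pow (fun _ hz => hz) n).congr
      (fun z _ => by simp [Function.iterate_fixed (f := fun z : ℂ => z) rfl])
      (fun z _ => Function.iterate_fixed rfl n)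
  have hBinner : ∀ x y, ⟪B x, B y⟫_ℂ = ⟪x, y⟫_ℂ := (LinearMap.norm_map_iff_inner_map_map B).1 hB1
  have hBninner : ∀ (n : ℕ) x y, ⟪(B ^ n) x, (B ^ n) y⟫_ℂ = ⟪x, y⟫_ℂ := by
    intro n
    induction n with
    | zero => intro x y; rfl
    | succ n ih =>
      intro x y
      rw [pow_succ', mul_apply_eq_comp, mul_apply_eq_comp, hBinner, ih]
  set v : ℕ → L2 := fun n => (B ^ n) (c • k) with hv
  have hev : ∀ n, ∀ z ∈ D, ev (v n) z = mob l a z ^ n * sk a z := by
    intro n z hz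
    rw [hv, hBn n _ z hz, ev_smul, hk1 z hz, sk, div_eq_mul_inv]
  have h0 : ∀ j : ℕ, ⟪c • k, v j⟫_ℂ = if j = 0 then 1 else 0 := by
    intro j
    rw [inner_smul_left, hk2, hev j a haD]
    have hm : mob l a a = 0 := by simp [mob]
    split_ifs with hj
    · subst hj
      have h5 : c ^ 2 = 1 - conj a * a := by
        rw [hc, ← Complex.ofReal_pow, Real.sq_sqrt (one_sub_sq_pos ha).le, mul_comm, mul_conj_eq]
        push_cast
        ring
      have h3 := one_sub_mul_conj_ne ha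
      rw [hc, Complex.conj_ofReal, ← hc, sk, ← hc]
      field_simp
      exact h5
    · rw [hm, zero_pow hj]
      simp
  have hle : ∀ i j : ℕ, i ≤ j → ⟪v i, v j⟫_ℂ = if i = j then 1 else 0 := by
    intro i j hij
    obtain ⟨d, rfl⟩ := Nat.exists_eq_add_of_le hij
    have : v (i + d) = (B ^ i) (v d) := by
      simp only [hv, pow_add, mul_apply_eq_comp]
    rw [this, hv, hBninner, h0]
    simp
  have horth : Orthonormal ℂ v := by
    rw [orthonormal_iff_ite]
    intro i j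
    rcases le_total i j with hij | hij
    · exact hle i j hij
    · rw [← inner_conj_symm, hle j i hij]
      by_cases h : i = j
      · simp [h]
      · simp [h, Ne.symm h]
  set U := horth.orthogonalFamily.linearIsometry with hU
  refine ⟨U.toContinuousLinearMap, fun x => U.norm_map x, fun x z hz => ?_⟩
  have h1 := (evL z hz).hasSum (horth.orthogonalFamily.hasSum_linearIsometry x)
  have h2 := (hasSum_ev x (mob_mapsTo hl ha hz)).mul_left (sk a z)
  have h3 : (fun n => evL z hz (LinearIsometry.toSpanSingleton ℂ L2 (horth.1 n) (x n))) =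
      fun n => sk a z * (x n * mob l a z ^ n) := by
    ext n
    rw [LinearIsometry.toSpanSingleton_apply, map_smul, evL_apply, hev n z hz, smul_eq_mul]
    ring
  rw [h3] at h1
  exact h1.unique h2

/-- The unitary weighted composition operator of a disc automorphism. -/
lemma exists_unitary {l a : ℂ} (hl : ‖l‖ = 1) (ha : ‖a‖ < 1) :
    ∃ U U' : L2 →L[ℂ] L2, (∀ x, ‖U x‖ = ‖x‖) ∧ (∀ x, ‖U' x‖ = ‖x‖) ∧ U * U' = 1 ∧ U' * U = 1 ∧
      IsWC U (sk a) (mob l a) := by
  have hl' : ‖conj l‖ = 1 := by rwa [Complex.norm_conj]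
  have ha' : ‖l * a‖ < 1 := by rwa [norm_mul, hl, one_mul]
  obtain ⟨U, hU1, hU2⟩ := exists_contraction hl ha
  obtain ⟨U', hU1', hU2'⟩ := exists_contraction hl' ha'
  have h1 : U * U' = 1 :=
    (hU2.mul hU2' (mob_mapsTo hl ha)).unique isWC_one (fun z hz => sk_mul_sk hl ha hz)
      (fun z hz => mob_mob hl ha hz)
  refine ⟨U, U', hU1, hU1', h1, ?_, hU2⟩
  ext1 x
  have h2 : U (U' (U x) - x) = 0 := by
    rw [map_sub, ← mul_apply_eq_comp, h1]
    simp
  have h3 := hU1 (U' (U x) - x)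
  rw [h2, norm_zero] at h3
  exact sub_eq_zero.1 (norm_eq_zero.1 h3.symm)

end Pool.Agent.Lib.MP_0e93e1_an
end
end

-- part Pool.Agent.Lib.MP_0e93e1_an.Eigen
section

/-!
Eigenfunctions of disc automorphisms of infinite order whose multipliers are bounded below.
-/

open Metric Set Filter Topology
open scoped Real ComplexConjugate

noncomputable section

namespace Pool.Agent.Lib.MP_0e93e1_an

lemma exists_fixed {l a : ℂ} (hl : ‖l‖ = 1) (ha : ‖a‖ < 1) :
    ∃ p : ℂ, ‖p‖ ≤ 1 ∧ mob l a p = p := by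
  rcases eq_or_ne a 0 with rfl | h0
  · exact ⟨0, by simp, by simp [mob]⟩
  have hc : conj a ≠ 0 := by simpa using h0
  obtain ⟨s, hs⟩ := IsAlgClosed.exists_pow_nat_eq ((1 + l) ^ 2 - 4 * conj a * (l * a)) two_pos
  have key : ∀ p : ℂ, ‖p‖ ≤ 1 → conj a * p ^ 2 - (1 + l) * p + l * a = 0 → mob l a p = p := by
    intro p hp h
    rw [mob, div_eq_iff (den_ne ha hp)]
    linear_combination h
  set p := ((1 + l) + s) / (2 * conj a) with hp
  set q := ((1 + l) - s) / (2 * conj a) with hq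
  have hp' : conj a * p ^ 2 - (1 + l) * p + l * a = 0 := by
    rw [hp]
    field_simp
    linear_combination hs
  have hq' : conj a * q ^ 2 - (1 + l) * q + l * a = 0 := by
    rw [hq]
    field_simp
    linear_combination hs
  have hpq : conj a * (p * q) = l * a := by
    rw [hp, hq]
    field_simp
    linear_combination -hs
  have hn : ‖p‖ * ‖q‖ = 1 := by
    have := congrArg norm hpq
    rw [norm_mul, norm_mul, norm_mul, Complex.norm_conj, hl, one_mul] at this
    have h1 : ‖a‖ ≠ 0 := norm_ne_zero_iff.2 h0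
    field_simp at this
    exact this
  by_cases h : ‖p‖ ≤ 1
  · exact ⟨p, h, key p h hp'⟩
  · push Not at h
    have h2 : ‖q‖ ≤ 1 := by nlinarith [norm_nonneg q]
    exact ⟨q, h2, key q h2 hq'⟩

lemma mob_sub_mob {l a z w : ℂ} (ha : ‖a‖ < 1) (hz : ‖z‖ ≤ 1) (hw : ‖w‖ ≤ 1) :
    mob l a w - mob l a z = -l * (1 - conj a * a) * (w - z) / ((1 - conj a * z) * (1 - conj a * w)) := by
  have h1 := den_ne ha hz
  have h2 := den_ne ha hw
  rw [mob, mob, div_sub_div _ _ h2 h1, mul_comm (1 - conj a * w) (1 - conj a * z)]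
  congr 1
  ring

lemma den_ne' {a w : ℂ} (ha : ‖a‖ < 1) (hw : ‖w‖ ≤ 1) : 1 - a * conj w ≠ 0 := by
  have := den_ne ha hw
  rw [← map_ne_zero (starRingEnd ℂ)] at this
  simpa using this

lemma one_sub_conj_mob {l a z w : ℂ} (hl : ‖l‖ = 1) (ha : ‖a‖ < 1) (hz : ‖z‖ ≤ 1) (hw : ‖w‖ ≤ 1) :
    1 - conj (mob l a w) * mob l a z =
      (1 - conj a * a) * (1 - conj w * z) / ((1 - a * conj w) * (1 - conj a * z)) := by
  have h1 := den_ne ha hz
  have h2 := den_ne' ha hw
  have h3 := mul_conj_of_norm_one hl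
  have h4 : conj (mob l a w) = conj l * (conj a - conj w) / (1 - a * conj w) := by simp [mob]
  rw [h4, mob, div_mul_div_comm, one_sub_div (mul_ne_zero h2 h1)]
  congr 1
  linear_combination (-(conj a - conj w) * (a - z)) * h3

lemma exp_pow_ne_one {s : ℝ} (hs : s = 1 ∨ s = -1) {n : ℕ} (hn : 0 < n) :
    Complex.exp (s * Complex.I) ^ n ≠ 1 := by
  intro h
  rw [← Complex.exp_nat_mul, Complex.exp_eq_one_iff] at h
  obtain ⟨k, hk⟩ := h
  have h1 : (n : ℝ) * s = k * (2 * π) := by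
    have := congrArg Complex.im hk
    simpa using this
  have hn' : (n : ℝ) ≠ 0 := by positivity
  have hk0 : (k : ℝ) ≠ 0 := by
    intro h0
    rw [h0, zero_mul] at h1
    rcases hs with rfl | rfl <;> simp [hn.ne'] at h1
  refine irrational_pi ?_
  rcases hs with rfl | rfl
  · refine ⟨(n : ℚ) / (2 * k), ?_⟩
    push_cast
    field_simp
    linarith
  · refine ⟨-(n : ℚ) / (2 * k), ?_⟩
    push_cast
    field_simp
    linarith

/-- the data needed for rotation invariance -/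
def HasEigen (φ : ℂ → ℂ) : Prop :=
  ∃ (h : ℂ → ℂ) (ω : ℂ) (c : ℝ) (M : L2 →L[ℂ] L2), ‖ω‖ = 1 ∧ (∀ n : ℕ, 0 < n → ω ^ n ≠ 1) ∧
    0 < c ∧ (∀ x, c * ‖x‖ ≤ ‖M x‖) ∧ IsWC M h (fun z => z) ∧ ∀ z ∈ D, h (φ z) = ω * h z

lemma hasEigen_elliptic {l a p : ℂ} (hl : ‖l‖ = 1) (ha : ‖a‖ < 1) (hp : ‖p‖ < 1)
    (hfix : mob l a p = p) (hinf : ∀ n : ℕ, 0 < n → ∃ z ∈ D, (mob l a)^[n] z ≠ z) :
    HasEigen (mob l a) := by
  obtain ⟨B, hB1, hB2⟩ := exists_mul_mob (l := 1) (a := p) (by simp) hp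
  set ω : ℂ := -l * (1 - a * conj p) / (1 - conj a * p) with hω
  have heig : ∀ z ∈ D, mob 1 p (mob l a z) = ω * mob 1 p z := by
    intro z hz
    have hz' := (mem_D.1 hz).le
    have h1 := mob_sub_mob (l := l) ha hz' hp.le
    have h2 := one_sub_conj_mob hl ha hz' hp.le
    rw [hfix] at h1 h2
    have h3 := den_ne ha hz'
    have h4 := den_ne ha hp.le
    have h5 := den_ne' ha hp.le
    have h6 := den_ne hp hz'
    have h7 := one_sub_mul_conj_ne ha
    rw [mob, h1, h2, hω, mob]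
    generalize 1 - conj a * z = A at *
    generalize 1 - conj a * p = B at *
    generalize 1 - a * conj p = C at *
    generalize 1 - conj p * z = E at *
    generalize 1 - conj a * a = F at *
    field_simp
  refine ⟨mob 1 p, ω, 1, B, ?_, fun n hn hωn => ?_, one_pos, fun x => by simp [hB1], hB2, heig⟩
  · have h4 := den_ne ha hp.le
    have h5 : 1 - a * conj p = conj (1 - conj a * p) := by simp
    rw [hω, norm_div, norm_mul, norm_neg, hl, one_mul, h5, Complex.norm_conj,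
      div_self (norm_ne_zero_iff.2 h4)]
  · obtain ⟨z, hz, hne⟩ := hinf n hn
    have h1 : ∀ k : ℕ, mob 1 p ((mob l a)^[k] z) = ω ^ k * mob 1 p z := by
      intro k
      induction k with
      | zero => simp
      | succ k ih =>
        rw [Function.iterate_succ_apply', heig _ ((mob_mapsTo hl ha).iterate k hz), ih]
        ring
    have h2 := h1 n
    rw [hωn, one_mul] at h2
    apply hne
    rw [← mob_mob (l := 1) (by simp) hp ((mob_mapsTo hl ha).iterate n hz), h2,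
      mob_mob (l := 1) (by simp) hp hz]

/-- the Cayley map onto the right half plane with pole `p` -/
def cay (p z : ℂ) : ℂ := (p + z) / (p - z)

lemma sub_ne_of_mem {p z : ℂ} (hp : ‖p‖ = 1) (hz : z ∈ D) : p - z ≠ 0 := by
  intro h
  have := mem_D.1 hz
  rw [← sub_eq_zero.1 h, hp] at this
  exact lt_irrefl _ this

lemma re_cay {p z : ℂ} (hp : ‖p‖ = 1) : (cay p z).re = (1 - ‖z‖ ^ 2) / ‖p - z‖ ^ 2 := by
  have h1 : p.re * p.re + p.im * p.im = 1 := by
    rw [← Complex.normSq_apply, ← Complex.sq_norm, hp, one_pow]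
  rw [cay, Complex.div_re, ← add_div, Complex.sq_norm, Complex.sq_norm]
  congr 1
  simp only [Complex.add_re, Complex.sub_re, Complex.add_im, Complex.sub_im, Complex.normSq_apply]
  linear_combination h1

lemma re_cay_pos {p z : ℂ} (hp : ‖p‖ = 1) (hz : z ∈ D) : 0 < (cay p z).re := by
  rw [re_cay hp]
  exact div_pos (one_sub_sq_pos (mem_D.1 hz)) (pow_pos (norm_pos_iff.2 (sub_ne_of_mem hp hz)) 2)

lemma differentiableAt_cay {p z : ℂ} (h : p - z ≠ 0) : DifferentiableAt ℂ (cay p) z := by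
  unfold cay
  fun_prop (disch := exact h)

lemma cay_mob {l a p : ℂ} (ha : ‖a‖ < 1) (hp : ‖p‖ = 1) (hfix : mob l a p = p) :
    ∃ κ β : ℝ, 0 < κ ∧ ∀ z ∈ D, cay p (mob l a z) = κ * cay p z + β * Complex.I := by
  have h4 := den_ne ha hp.le
  have h5 := den_ne' ha hp.le
  have h7 := one_sub_mul_conj_ne ha
  have h8 := mul_conj_of_norm_one hp
  have hp0 : p ≠ 0 := by
    rintro rfl
    simp at hp
  have hl : -l * (1 - a * conj p) = 1 - conj a * p := by
    rw [mob, div_eq_iff h4] at hfix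
    refine mul_left_cancel₀ hp0 ?_
    linear_combination hfix + (l * a) * h8
  have hl' : -l = (1 - conj a * p) / (1 - a * conj p) := by rw [eq_div_iff h5, hl]
  refine ⟨‖1 - conj a * p‖ ^ 2 / (1 - ‖a‖ ^ 2), 2 * (conj a * p).im / (1 - ‖a‖ ^ 2),
    div_pos (pow_pos (norm_pos_iff.2 h4) 2) (one_sub_sq_pos ha), fun z hz => ?_⟩
  have hz' := (mem_D.1 hz).le
  have h1 := mob_sub_mob (l := l) ha hz' hp.le
  rw [hfix] at h1
  have h3 := den_ne ha hz'
  have h6 := sub_ne_of_mem hp hz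
  have e1 : ((‖1 - conj a * p‖ ^ 2 / (1 - ‖a‖ ^ 2) : ℝ) : ℂ) =
      (1 - conj a * p) * (1 - a * conj p) / (1 - conj a * a) := by
    have h5 : 1 - a * conj p = conj (1 - conj a * p) := by simp
    rw [h5, mul_conj_eq, mul_comm (conj a) a, mul_conj_eq]
    push_cast
    rfl
  have e2 : ((2 * (conj a * p).im / (1 - ‖a‖ ^ 2) : ℝ) : ℂ) * Complex.I =
      (conj a * p - a * conj p) / (1 - conj a * a) := by
    have h5 : a * conj p = conj (conj a * p) := by simp
    rw [h5, Complex.sub_conj, mul_comm (conj a) a, mul_conj_eq]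
    push_cast
    ring
  have e3 : p + mob l a z = 2 * p - (p - mob l a z) := by ring
  have e4 : p - mob l a z =
      (1 - conj a * a) * (p - z) / ((1 - conj a * z) * (1 - a * conj p)) := by
    rw [h1, hl']
    generalize 1 - conj a * z = A at *
    generalize 1 - conj a * p = B at *
    generalize 1 - a * conj p = C at *
    field_simp
  have e5 : ∀ A C F u : ℂ, A ≠ 0 → C ≠ 0 → F ≠ 0 → u ≠ 0 →
      (2 * p - F * u / (A * C)) / (F * u / (A * C)) = (2 * p * A * C - F * u) / (F * u) := by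
    intro A C F u hA hC hF hu
    field_simp
  have e6 : ∀ B C F u v w : ℂ, F ≠ 0 → u ≠ 0 →
      B * C / F * (v / u) + w / F = (B * C * v + w * u) / (F * u) := by
    intro B C F u v w hF hu
    field_simp
  rw [e1, e2, cay, cay, e3, e4, e5 _ _ _ _ h3 h5 h7 h6, e6 _ _ _ _ _ _ h7 h6]
  congr 1
  linear_combination (-(a * conj a * (p - z))) * h8

lemma hasEigen_boundary {l a p : ℂ} (hl : ‖l‖ = 1) (ha : ‖a‖ < 1) (hp : ‖p‖ = 1)
    (hfix : mob l a p = p) (hinf : ∃ z ∈ D, mob l a z ≠ z) : HasEigen (mob l a) := by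
  obtain ⟨κ, β, hκ, hc⟩ := cay_mob ha hp hfix
  have hdc : DifferentiableOn ℂ (cay p) D := fun z hz =>
    (differentiableAt_cay (sub_ne_of_mem hp hz)).differentiableWithinAt
  by_cases hκ1 : κ = 1
  · subst hκ1
    have hβ : β ≠ 0 := by
      rintro rfl
      obtain ⟨z, hz, hne⟩ := hinf
      have h1 := hc z hz
      have h2 := sub_ne_of_mem hp hz
      have h3 := sub_ne_of_mem hp (mob_mapsTo hl ha hz)
      have hp0 : p ≠ 0 := by
        rintro rfl
        simp at hp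
      simp only [cay, Complex.ofReal_one, one_mul, Complex.ofReal_zero, zero_mul, add_zero] at h1
      rw [div_eq_div_iff h3 h2] at h1
      apply hne
      refine mul_left_cancel₀ (mul_ne_zero two_ne_zero hp0) ?_
      linear_combination h1
    have hβ' : 0 < |β| := abs_pos.2 hβ
    set h : ℂ → ℂ := fun z => Complex.exp (-(cay p z) / (|β| : ℝ)) with hh
    have hnorm : ∀ z, ‖h z‖ = Real.exp (-(cay p z).re / |β|) := by
      intro z
      rw [hh, Complex.norm_exp, Complex.div_ofReal_re, Complex.neg_re]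
    have hd : DifferentiableOn ℂ h D := (hdc.neg.div_const _).cexp
    have h1 : ∀ z ∈ D, ‖h z‖ ≤ 1 := by
      intro z hz
      rw [hnorm, Real.exp_le_one_iff]
      exact div_nonpos_of_nonpos_of_nonneg (neg_nonpos.2 (re_cay_pos hp hz).le) hβ'.le
    obtain ⟨M, -, hM⟩ := exists_mul hd h1
    refine ⟨h, Complex.exp ((-β / |β| : ℝ) * Complex.I), 1, M, Complex.norm_exp_ofReal_mul_I _,
      fun n hn => exp_pow_ne_one ?_ hn, one_pos, fun x => ?_, hM, fun z hz => ?_⟩
    · rcases lt_or_gt_of_ne hβ with h | h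
      · left
        rw [abs_of_neg h, div_self (neg_ne_zero.2 hβ)]
      · right
        rw [abs_of_pos h, neg_div, div_self hβ]
    · rw [one_mul]
      refine hM.le_norm_of_inner hd.continuousOn h1 ?_ x
      refine tendsto_av_of_boundary hd.continuousOn h1 p fun ζ hζ hne => ⟨?_, ?_⟩
      · exact (((differentiableAt_cay (sub_ne_zero.2 hne.symm)).neg.div_const _).cexp).continuousAt
      · rw [hnorm, re_cay hp, hζ]
        simp
    · simp only [hh]
      rw [hc z hz, ← Complex.exp_add]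
      congr 1
      push_cast
      ring
  · set m : ℂ → ℂ := fun z => cay p z - (β / (1 - κ) : ℝ) * Complex.I with hm
    have hmre : ∀ z ∈ D, 0 < (m z).re := fun z hz => by
      simp only [hm, Complex.sub_re, Complex.mul_re, Complex.ofReal_re, Complex.I_re,
        Complex.ofReal_im, Complex.I_im]
      linarith [re_cay_pos hp hz]
    have hmslit : ∀ z ∈ D, m z ∈ Complex.slitPlane := fun z hz => Or.inl (hmre z hz)
    have hmφ : ∀ z ∈ D, m (mob l a z) = κ * m z := by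
      intro z hz
      have h1 : (1 - κ : ℂ) ≠ 0 := by exact_mod_cast sub_ne_zero.2 (Ne.symm hκ1)
      simp only [hm]
      rw [hc z hz]
      push_cast
      field_simp
      ring
    have hlog : Real.log κ ≠ 0 := Real.log_ne_zero_of_pos_of_ne_one hκ hκ1
    set t : ℝ := (Real.log κ)⁻¹ with ht
    set h : ℂ → ℂ := fun z => Complex.exp (t * Complex.I * Complex.log (m z)) with hh
    have hd : DifferentiableOn ℂ h D :=
      (((hdc.sub_const _).clog hmslit).const_mul _).cexp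
    have hnorm : ∀ z, ‖h z‖ = Real.exp (-(t * Complex.arg (m z))) := by
      intro z
      rw [hh, Complex.norm_exp]
      simp [Complex.log_im]
    have habs : ∀ z, |t * Complex.arg (m z)| ≤ |t| * π := by
      intro z
      rw [abs_mul]
      gcongr
      exact Complex.abs_arg_le_pi _
    have h1 : ∀ z ∈ D, ‖h z‖ ≤ Real.exp (|t| * π) := by
      intro z _
      rw [hnorm, Real.exp_le_exp]
      exact (neg_le_abs _).trans (habs z)
    have h2 : ∀ z ∈ D, Real.exp (-(|t| * π)) ≤ ‖h z‖ := by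
      intro z _
      rw [hnorm, Real.exp_le_exp, neg_le_neg_iff]
      exact (le_abs_self _).trans (habs z)
    obtain ⟨M, -, hM⟩ := exists_mul hd h1
    obtain ⟨N, hN1, -, hN2⟩ := hM.exists_inv hd (Real.exp_pos _) h2
    refine ⟨h, Complex.exp ((1 : ℝ) * Complex.I), Real.exp (-(|t| * π)), M,
      Complex.norm_exp_ofReal_mul_I _, fun n hn => exp_pow_ne_one (Or.inl rfl) hn, Real.exp_pos _,
      fun x => ?_, hM, fun z hz => ?_⟩
    · have h3 := N.le_of_opNorm_le hN1 (M x)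
      rw [← mul_apply_eq_comp, hN2] at h3
      rw [← le_inv_mul_iff₀ (Real.exp_pos _)]
      exact h3
    · have h3 : m z ≠ 0 := Complex.slitPlane_ne_zero (hmslit z hz)
      simp only [hh]
      rw [hmφ z hz, Complex.log_ofReal_mul hκ h3, ← Complex.exp_add]
      congr 1
      have h4 : (t : ℂ) * (Real.log κ : ℝ) = 1 := by
        exact_mod_cast inv_mul_cancel₀ hlog
      push_cast at h4 ⊢
      linear_combination Complex.I * h4

theorem hasEigen {l a : ℂ} (hl : ‖l‖ = 1) (ha : ‖a‖ < 1)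
    (hinf : ∀ n : ℕ, 0 < n → ∃ z ∈ D, (mob l a)^[n] z ≠ z) : HasEigen (mob l a) := by
  obtain ⟨p, hp, hfix⟩ := exists_fixed hl ha
  rcases hp.lt_or_eq with h | h
  · exact hasEigen_elliptic hl ha h hfix hinf
  · exact hasEigen_boundary hl ha h hfix (hinf 1 one_pos)

end Pool.Agent.Lib.MP_0e93e1_an
end
end

-- part Pool.Agent.Lib.MP_0e93e1_an.HardyAux
section

/-!
Lemmas that make the Hardy space, defined by integral means, a normed space.
-/

open Metric Set Filter Topology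
open scoped Real ComplexConjugate

noncomputable section

namespace Pool.Agent.Lib.MP_0e93e1_an

lemma mean_eq_av (f : ℂ → ℂ) (r : ℝ) : mean f r = av f r := by
  simp [mean, av, Real.circleAverage_def, circleMap]

lemma sqrt_sSup_mean {f : ℂ → ℂ} {a : L2} (h : ∀ z ∈ D, ev a z = f z) :
    √(sSup (mean f '' Ioo 0 1)) = ‖a‖ := by
  have h1 : ∀ r ∈ Ioo (0 : ℝ) 1, mean f r = av (ev a) r := fun r hr => by
    rw [mean_eq_av, av_congr h hr.1.le hr.2]
  have h2 : IsLUB (mean f '' Ioo 0 1) (‖a‖ ^ 2) := by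
    constructor
    · rintro _ ⟨r, hr, rfl⟩
      rw [h1 r hr]
      exact av_ev_le a hr.1.le hr.2
    · intro b hb
      refine le_of_tendsto (tendsto_av_ev a) ?_
      filter_upwards [Ioo_mem_nhdsLT (zero_lt_one' ℝ)] with r hr
      rw [← h1 r hr]
      exact hb ⟨r, hr, rfl⟩
  rw [h2.csSup_eq ((nonempty_Ioo.2 zero_lt_one).image _), Real.sqrt_sq (norm_nonneg _)]

lemma exists_coeff {f : ℂ → ℂ} (hd : DifferentiableOn ℂ f (ball 0 1))
    (hb : BddAbove (mean f '' Ioo 0 1)) : ∃ a : L2, ∀ z ∈ D, ev a z = f z := by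
  obtain ⟨C, hC⟩ := hb
  obtain ⟨a, -, ha⟩ := exists_of_av_le hd (Real.sqrt_nonneg C) fun r hr => by
    rw [← mean_eq_av]
    exact (hC ⟨r, hr, rfl⟩).trans (by rw [Real.sq_sqrt']; exact le_max_left _ _)
  exact ⟨a, ha⟩

lemma of_coeff {f : ℂ → ℂ} {a : L2} (h : ∀ z ∈ D, ev a z = f z) :
    DifferentiableOn ℂ f (ball 0 1) ∧ BddAbove (mean f '' Ioo 0 1) := by
  refine ⟨(differentiableOn_ev a).congr fun z hz => (h z hz).symm, ‖a‖ ^ 2, ?_⟩
  rintro _ ⟨r, hr, rfl⟩
  rw [mean_eq_av, ← av_congr h hr.1.le hr.2]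
  exact av_ev_le a hr.1.le hr.2

lemma hardy_add {f g : ℂ → ℂ}
    (hf : DifferentiableOn ℂ f (ball 0 1) ∧ (∀ z, z ∉ ball (0 : ℂ) 1 → f z = 0) ∧
      BddAbove (mean f '' Ioo 0 1))
    (hg : DifferentiableOn ℂ g (ball 0 1) ∧ (∀ z, z ∉ ball (0 : ℂ) 1 → g z = 0) ∧
      BddAbove (mean g '' Ioo 0 1)) :
    DifferentiableOn ℂ (f + g) (ball 0 1) ∧ (∀ z, z ∉ ball (0 : ℂ) 1 → (f + g) z = 0) ∧
      BddAbove (mean (f + g) '' Ioo 0 1) := by
  obtain ⟨a, ha⟩ := exists_coeff hf.1 hf.2.2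
  obtain ⟨b, hb⟩ := exists_coeff hg.1 hg.2.2
  have := of_coeff (f := f + g) (a := a + b) fun z hz => by
    rw [ev_add _ _ hz, ha z hz, hb z hz, Pi.add_apply]
  exact ⟨this.1, fun z hz => by simp [hf.2.1 z hz, hg.2.1 z hz], this.2⟩

lemma hardy_zero :
    DifferentiableOn ℂ (0 : ℂ → ℂ) (ball 0 1) ∧ (∀ z, z ∉ ball (0 : ℂ) 1 → (0 : ℂ → ℂ) z = 0) ∧
      BddAbove (mean 0 '' Ioo 0 1) := by
  have := of_coeff (f := 0) (a := 0) fun z _ => ev_zero z
  exact ⟨this.1, fun _ _ => rfl, this.2⟩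

lemma hardy_smul (c : ℂ) {f : ℂ → ℂ}
    (hf : DifferentiableOn ℂ f (ball 0 1) ∧ (∀ z, z ∉ ball (0 : ℂ) 1 → f z = 0) ∧
      BddAbove (mean f '' Ioo 0 1)) :
    DifferentiableOn ℂ (c • f) (ball 0 1) ∧ (∀ z, z ∉ ball (0 : ℂ) 1 → (c • f) z = 0) ∧
      BddAbove (mean (c • f) '' Ioo 0 1) := by
  obtain ⟨a, ha⟩ := exists_coeff hf.1 hf.2.2
  have := of_coeff (f := c • f) (a := c • a) fun z hz => by
    rw [ev_smul, ha z hz, Pi.smul_apply, smul_eq_mul]
  exact ⟨this.1, fun z hz => by simp [hf.2.1 z hz], this.2⟩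

lemma hnorm_zero : √(sSup (mean 0 '' Ioo 0 1)) = 0 := by
  rw [sqrt_sSup_mean (f := 0) (a := 0) fun z _ => ev_zero z, norm_zero]

lemma hnorm_add {f g : ℂ → ℂ}
    (hf : DifferentiableOn ℂ f (ball 0 1) ∧ (∀ z, z ∉ ball (0 : ℂ) 1 → f z = 0) ∧
      BddAbove (mean f '' Ioo 0 1))
    (hg : DifferentiableOn ℂ g (ball 0 1) ∧ (∀ z, z ∉ ball (0 : ℂ) 1 → g z = 0) ∧
      BddAbove (mean g '' Ioo 0 1)) :
    √(sSup (mean (f + g) '' Ioo 0 1)) ≤
      √(sSup (mean f '' Ioo 0 1)) + √(sSup (mean g '' Ioo 0 1)) := by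
  obtain ⟨a, ha⟩ := exists_coeff hf.1 hf.2.2
  obtain ⟨b, hb⟩ := exists_coeff hg.1 hg.2.2
  rw [sqrt_sSup_mean ha, sqrt_sSup_mean hb, sqrt_sSup_mean (a := a + b) fun z hz => by
    rw [ev_add _ _ hz, ha z hz, hb z hz, Pi.add_apply]]
  exact norm_add_le _ _

lemma hnorm_smul (c : ℂ) {f : ℂ → ℂ}
    (hf : DifferentiableOn ℂ f (ball 0 1) ∧ (∀ z, z ∉ ball (0 : ℂ) 1 → f z = 0) ∧
      BddAbove (mean f '' Ioo 0 1)) :
    √(sSup (mean (c • f) '' Ioo 0 1)) = ‖c‖ * √(sSup (mean f '' Ioo 0 1)) := by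
  obtain ⟨a, ha⟩ := exists_coeff hf.1 hf.2.2
  rw [sqrt_sSup_mean ha, sqrt_sSup_mean (a := c • a) fun z hz => by
    rw [ev_smul, ha z hz, Pi.smul_apply, smul_eq_mul], norm_smul]

lemma hnorm_neg {f : ℂ → ℂ}
    (hf : DifferentiableOn ℂ f (ball 0 1) ∧ (∀ z, z ∉ ball (0 : ℂ) 1 → f z = 0) ∧
      BddAbove (mean f '' Ioo 0 1)) :
    √(sSup (mean (-f) '' Ioo 0 1)) = √(sSup (mean f '' Ioo 0 1)) := by
  simpa using hnorm_smul (-1) hf

lemma hnorm_eq_zero {f : ℂ → ℂ}
    (hf : DifferentiableOn ℂ f (ball 0 1) ∧ (∀ z, z ∉ ball (0 : ℂ) 1 → f z = 0) ∧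
      BddAbove (mean f '' Ioo 0 1))
    (h : √(sSup (mean f '' Ioo 0 1)) = 0) : f = 0 := by
  obtain ⟨a, ha⟩ := exists_coeff hf.1 hf.2.2
  rw [sqrt_sSup_mean ha, norm_eq_zero] at h
  ext z
  by_cases hz : z ∈ D
  · rw [← ha z hz, h, ev_zero, Pi.zero_apply]
  · exact hf.2.1 z hz

end Pool.Agent.Lib.MP_0e93e1_an
end
end

-- part Pool.Agent.Lib.MP_0e93e1_an.Hardy
section

open Metric Set

namespace Pool.Agent.Lib.MP_0e93e1_an

/-- Functions analytic on the unit disc with bounded integral means (normalised to vanish off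
the disc, so that they are the same thing as functions on the disc). -/
noncomputable def hardy : Submodule ℂ (ℂ → ℂ) where
  carrier := {f | DifferentiableOn ℂ f (ball 0 1) ∧ (∀ z, z ∉ ball (0 : ℂ) 1 → f z = 0) ∧
    BddAbove (mean f '' Ioo 0 1)}
  add_mem' := hardy_add
  zero_mem' := hardy_zero
  smul_mem' := fun c _ hf => hardy_smul c hf

/-- The Hardy space as a type. -/
def H2 : Type := hardy

noncomputable instance : AddCommGroup H2 := inferInstanceAs (AddCommGroup hardy)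

noncomputable instance : Module ℂ H2 := inferInstanceAs (Module ℂ hardy)

/-- The function underlying an element of the Hardy space. -/
def H2.fn (f : H2) : ℂ → ℂ := Subtype.val f

/-- The Hardy norm: the square root of the supremum of the integral means. -/
noncomputable instance : NormedAddCommGroup H2 :=
  AddGroupNorm.toNormedAddCommGroup
    { toFun := fun f => √(sSup (mean f.fn '' Ioo 0 1))
      map_zero' := hnorm_zero
      add_le' := fun f g => hnorm_add f.2 g.2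
      neg' := fun f => hnorm_neg f.2
      eq_zero_of_map_eq_zero' := fun f h => Subtype.ext (hnorm_eq_zero f.2 h) }

noncomputable instance : NormedSpace ℂ H2 where
  norm_smul_le c f := (hnorm_smul c f.2).le

end Pool.Agent.Lib.MP_0e93e1_an
end
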