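import Mathlib

-- part Pool.Agent.Lib.MP_0e93e1_an.Gap
section

/-!
Riesz projections: what a circular gap in the spectrum implies.
-/

open Metric Set Filter Topology
open scoped Real

noncomputable section

namespace Pool.Agent.Lib.MP_0e93e1_an

variable {A : Type*} [NormedRing A] [NormedAlgebra ℂ A] [CompleteSpace A]

/-- Laurent coefficients of the resolvent on a circle. -/
def lc (T : A) (ρ : ℝ) (k : ℤ) : A :=
  (2 * π * Complex.I : ℂ)⁻¹ • ∮ z in C(0, ρ), z ^ k • resolvent T z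

lemma clm_circleIntegral (L : A →L[ℂ] A) {f : ℂ → A} {ρ : ℝ} (hf : CircleIntegrable f 0 ρ) :
    L (∮ z in C(0, ρ), f z) = ∮ z in C(0, ρ), L (f z) := by
  simp only [circleIntegral]
  rw [← L.intervalIntegral_comp_comm hf.out]
  simp

omit [CompleteSpace A] in
lemma mul_resolvent {T : A} {z : ℂ} (hz : z ∈ resolventSet ℂ T) :
    T * resolvent T z = z • resolvent T z - 1 := by
  have h : (algebraMap ℂ A z - T) * resolvent T z = 1 := by
    rw [spectrum.resolvent_eq hz]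
    exact hz.mul_val_inv
  rw [sub_mul, ← Algebra.smul_def] at h
  rw [← h]
  abel

omit [CompleteSpace A] in
lemma resolvent_mul {T : A} {z : ℂ} (hz : z ∈ resolventSet ℂ T) :
    resolvent T z * T = z • resolvent T z - 1 := by
  have h : resolvent T z * (algebraMap ℂ A z - T) = 1 := by
    rw [spectrum.resolvent_eq hz]
    exact hz.val_inv_mul
  rw [mul_sub, ← Algebra.commutes, ← Algebra.smul_def] at h
  rw [← h]
  abel

section circle

variable {T : A} {ρ : ℝ} (hρ : 0 < ρ) (hT : ∀ z : ℂ, ‖z‖ = ρ → z ∈ resolventSet ℂ T)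
include hρ hT

omit hρ in
lemma continuousOn_resolvent : ContinuousOn (fun z : ℂ => resolvent T z) (sphere 0 ρ) :=
  fun z hz => (spectrum.hasDerivAt_resolvent_const_left
    (hT z (mem_sphere_zero_iff_norm.1 hz))).continuousAt.continuousWithinAt

omit hT in
lemma continuousOn_zpow_sphere (k : ℤ) : ContinuousOn (fun z : ℂ => z ^ k) (sphere 0 ρ) := by
  refine ContinuousOn.zpow₀ continuousOn_id k fun z hz => Or.inl ?_
  rintro rfl
  simp [hρ.ne] at hz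

lemma circleIntegrable_lc (k : ℤ) :
    CircleIntegrable (fun z : ℂ => z ^ k • resolvent T z) 0 ρ :=
  ContinuousOn.circleIntegrable hρ.le
    ((continuousOn_zpow_sphere hρ k).smul (continuousOn_resolvent hT))

lemma lc_step (L : A →L[ℂ] A)
    (hL : ∀ z ∈ resolventSet ℂ T, L (resolvent T z) = z • resolvent T z - 1) (k : ℤ) :
    L (lc T ρ k) = lc T ρ (k + 1) - if k = -1 then 1 else 0 := by
  have h1 : (∮ z in C(0, ρ), L (z ^ k • resolvent T z)) =
      ∮ z in C(0, ρ), (z ^ (k + 1) • resolvent T z - z ^ k • (1 : A)) := by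
    refine circleIntegral.integral_congr hρ.le fun z hz => ?_
    have hz' := mem_sphere_zero_iff_norm.1 hz
    have hz0 : z ≠ 0 := by
      rintro rfl
      simp [hρ.ne] at hz'
    simp only [map_smul, hL z (hT z hz'), smul_sub, smul_smul, zpow_add_one₀ hz0]
  have h2 : CircleIntegrable (fun z : ℂ => z ^ k • (1 : A)) 0 ρ :=
    ContinuousOn.circleIntegrable hρ.le ((continuousOn_zpow_sphere hρ k).smul continuousOn_const)
  rw [lc, map_smul, clm_circleIntegral L (circleIntegrable_lc hρ hT k), h1,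
    circleIntegral.integral_sub (circleIntegrable_lc hρ hT (k + 1)) h2, smul_sub, lc,
    circleIntegral.integral_smul_const]
  congr 1
  split_ifs with hk
  · subst hk
    have h3 := circleIntegral.integral_sub_center_inv (0 : ℂ) hρ.ne'
    simp only [sub_zero] at h3
    simp only [zpow_neg, zpow_one, h3, smul_smul]
    rw [inv_mul_cancel₀ Complex.two_pi_I_ne_zero, one_smul]
  · have h3 := circleIntegral.integral_sub_zpow_of_ne hk 0 0 ρ
    simp only [sub_zero] at h3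
    simp [h3]

lemma mul_lc (k : ℤ) : T * lc T ρ k = lc T ρ (k + 1) - if k = -1 then 1 else 0 :=
  lc_step hρ hT (ContinuousLinearMap.mul ℂ A T) (fun _ hz => mul_resolvent hz) k

lemma lc_mul (k : ℤ) : lc T ρ k * T = lc T ρ (k + 1) - if k = -1 then 1 else 0 :=
  lc_step hρ hT ((ContinuousLinearMap.mul ℂ A).flip T) (fun _ hz => resolvent_mul hz) k

lemma pow_mul_lc_zero (n : ℕ) : T ^ n * lc T ρ 0 = lc T ρ n := by
  induction n with
  | zero => simp
  | succ n ih =>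
    rw [pow_succ', mul_assoc, ih, mul_lc hρ hT, if_neg (by omega)]
    simp

lemma lc_zero_mul_pow (n : ℕ) : lc T ρ 0 * T ^ n = lc T ρ n := by
  induction n with
  | zero => simp
  | succ n ih =>
    rw [pow_succ, ← mul_assoc, ih, lc_mul hρ hT, if_neg (by omega)]
    simp

lemma pow_mul_lc_neg (n : ℕ) : T ^ (n + 1) * lc T ρ (-(n + 1 : ℕ)) = lc T ρ 0 - 1 := by
  induction n with
  | zero => simpa using mul_lc hρ hT (-1)
  | succ n ih =>
    rw [pow_succ, mul_assoc, mul_lc hρ hT, if_neg (by omega), sub_zero, ← ih]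
    congr 2

lemma lc_neg_mul_pow (n : ℕ) : lc T ρ (-(n + 1 : ℕ)) * T ^ (n + 1) = lc T ρ 0 - 1 := by
  induction n with
  | zero => simpa using lc_mul hρ hT (-1)
  | succ n ih =>
    rw [pow_succ', ← mul_assoc, lc_mul hρ hT, if_neg (by omega), sub_zero, ← ih]
    congr 2

lemma exists_norm_lc_le : ∃ K : ℝ, 0 ≤ K ∧ ∀ k : ℤ, ‖lc T ρ k‖ ≤ K * ρ ^ k := by
  obtain ⟨K, hK⟩ := (isCompact_sphere (0 : ℂ) ρ).exists_bound_of_continuousOn
    (continuousOn_resolvent hT)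
  have hK0 : 0 ≤ K := (norm_nonneg _).trans (hK (ρ : ℂ) (by simp [abs_of_pos hρ]))
  refine ⟨ρ * K, by positivity, fun k => ?_⟩
  have := circleIntegral.norm_two_pi_i_inv_smul_integral_le_of_norm_le_const (c := 0)
    (f := fun z : ℂ => z ^ k • resolvent T z) (C := ρ ^ k * K) hρ.le (fun z hz => by
      rw [norm_smul, norm_zpow, mem_sphere_zero_iff_norm.1 hz]
      gcongr
      exact hK z hz)
  calc ‖lc T ρ k‖ ≤ ρ * (ρ ^ k * K) := this
    _ = _ := by ring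

end circle

lemma lc_zero_eq {T : A} {r ρ : ℝ} (hr : 0 < r) (hrρ : r ≤ ρ)
    (hT : ∀ z : ℂ, r ≤ ‖z‖ → ‖z‖ ≤ ρ → z ∈ resolventSet ℂ T) : lc T ρ 0 = lc T r 0 := by
  simp only [lc, zpow_zero, one_smul]
  congr 1
  refine Complex.circleIntegral_eq_of_differentiable_on_annulus_off_countable hr hrρ
    countable_empty (fun z hz => ?_) (fun z hz => ?_)
  · refine (spectrum.hasDerivAt_resolvent_const_left (hT z ?_ ?_)).continuousAt.continuousWithinAt
    · simpa using hz.2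
    · simpa using hz.1
  · refine (spectrum.hasDerivAt_resolvent_const_left (hT z ?_ ?_)).differentiableAt
    · have := hz.1.2
      simp only [mem_closedBall, dist_zero_right, not_le] at this
      exact this.le
    · have := hz.1.1
      simp only [mem_ball, dist_zero_right] at this
      exact this.le

lemma le_of_pow_le_mul_pow {x y c : ℝ} (hy : 0 ≤ y)
    (h : ∀ n : ℕ, x ^ (n + 1) ≤ c * y ^ (n + 1)) : x ≤ y := by
  by_contra hlt
  push Not at hlt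
  have hx : 0 < x := hy.trans_lt hlt
  have h1 : Tendsto (fun n : ℕ => c * (y / x) ^ (n + 1)) atTop (𝓝 (c * 0)) :=
    ((tendsto_pow_atTop_nhds_zero_of_lt_one (by positivity) ((div_lt_one hx).2 hlt)).comp
      (tendsto_add_atTop_nat 1)).const_mul c
  have h2 : (1 : ℝ) ≤ c * 0 := by
    refine ge_of_tendsto' h1 fun n => ?_
    rw [div_pow, ← mul_div_assoc, le_div_iff₀ (by positivity), one_mul]
    exact h n
  norm_num at h2

lemma one_le_of_mem_spectrum [NormOneClass A] {u v : A} (huv : u * v = 1) (hvu : v * u = 1) {ν : ℂ}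
    (hν : ν ∈ spectrum ℂ u) : 1 ≤ ‖ν‖ * ‖v‖ := by
  let U : Aˣ := ⟨u, v, huv, hvu⟩
  have h0 : ν ≠ 0 := spectrum.ne_zero_of_mem_of_unit (a := U) hν
  have h1 : ν⁻¹ ∈ spectrum ℂ v := spectrum.inv₀_mem_inv (a := U) hν
  have h2 := spectrum.norm_le_norm_of_mem h1
  rw [norm_inv] at h2
  have h3 : 0 < ‖ν‖ := norm_pos_iff.2 h0
  calc (1 : ℝ) = ‖ν‖ * ‖ν‖⁻¹ := (mul_inv_cancel₀ h3.ne').symm
    _ ≤ _ := by gcongr

omit [NormedAlgebra ℂ A] [CompleteSpace A] in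
lemma eq_zero_of_norm_le_geometric {x : A} {c q : ℝ} (hq0 : 0 ≤ q) (hq : q < 1)
    (h : ∀ n : ℕ, ‖x‖ ≤ c * q ^ (n + 1)) : x = 0 := by
  have h1 : Tendsto (fun n : ℕ => c * q ^ (n + 1)) atTop (𝓝 (c * 0)) :=
    ((tendsto_pow_atTop_nhds_zero_of_lt_one hq0 hq).comp (tendsto_add_atTop_nat 1)).const_mul c
  have h2 : ‖x‖ ≤ c * 0 := ge_of_tendsto' h1 h
  rw [mul_zero] at h2
  exact norm_le_zero_iff.1 h2

/-- The Riesz projection attached to an annular gap in the spectrum. -/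
theorem exists_riesz [NormOneClass A] {T : A} {r ρ : ℝ} (hr : 0 < r) (hrρ : r < ρ)
    (hT : ∀ z : ℂ, r ≤ ‖z‖ → ‖z‖ ≤ ρ → z ∈ resolventSet ℂ T) :
    ∃ P : A, P * P = P ∧
      (∀ (S : A) (K : ℝ), (∀ n : ℕ, ∃ N, ‖N‖ ≤ K ∧ T ^ n * S = N * T ^ n) →
        (∀ n : ℕ, ∃ N, ‖N‖ ≤ K ∧ S * T ^ n = T ^ n * N) → P * S = S * P) ∧
      (P = 1 → ∀ μ ∈ spectrum ℂ T, ‖μ‖ ≤ r) ∧ (P = 0 → ∀ μ ∈ spectrum ℂ T, ρ ≤ ‖μ‖) := by
  have hρ : 0 < ρ := hr.trans hrρ
  have hTr : ∀ z : ℂ, ‖z‖ = r → z ∈ resolventSet ℂ T := fun z hz =>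
    hT z hz.ge (hz.le.trans hrρ.le)
  have hTρ : ∀ z : ℂ, ‖z‖ = ρ → z ∈ resolventSet ℂ T := fun z hz =>
    hT z (hrρ.le.trans hz.ge) hz.le
  obtain ⟨K₁, hK₁0, hK₁⟩ := exists_norm_lc_le hr hTr
  obtain ⟨K₂, hK₂0, hK₂⟩ := exists_norm_lc_le hρ hTρ
  have heq := lc_zero_eq hr hrρ.le hT
  set P := lc T r 0 with hP
  have hq0 : 0 ≤ r / ρ := by positivity
  have hq : r / ρ < 1 := (div_lt_one hρ).2 hrρ
  have hb1 : ∀ n : ℕ, ‖lc T r (n + 1 : ℕ)‖ ≤ K₁ * r ^ (n + 1) := fun n => by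
    simpa only [zpow_natCast] using hK₁ (n + 1 : ℕ)
  have hb2 : ∀ n : ℕ, ‖lc T ρ (-(n + 1 : ℕ))‖ ≤ K₂ * (ρ ^ (n + 1))⁻¹ := fun n => by
    simpa only [zpow_neg, zpow_natCast] using hK₂ (-(n + 1 : ℕ))
  have hmain1 : ∀ (S : A) (K : ℝ), (∀ n : ℕ, ∃ N, ‖N‖ ≤ K ∧ S * T ^ n = T ^ n * N) →
      P * S * (P - 1) = 0 := by
    intro S K hS
    refine eq_zero_of_norm_le_geometric (c := K₁ * K * K₂) hq0 hq fun n => ?_
    obtain ⟨N, hN1, hN2⟩ := hS (n + 1)
    have h1 : P * S * (P - 1) = lc T r (n + 1 : ℕ) * N * lc T ρ (-(n + 1 : ℕ)) := by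
      rw [← lc_zero_mul_pow hr hTr, ← hP, mul_assoc P (T ^ (n + 1)), ← hN2, ← mul_assoc,
        mul_assoc (P * S), pow_mul_lc_neg hρ hTρ, heq]
    have hK0 : 0 ≤ K := (norm_nonneg _).trans hN1
    calc ‖P * S * (P - 1)‖ ≤ ‖lc T r (n + 1 : ℕ)‖ * ‖N‖ * ‖lc T ρ (-(n + 1 : ℕ))‖ := by
          rw [h1]
          exact (norm_mul_le _ _).trans (by gcongr; exact norm_mul_le _ _)
      _ ≤ (K₁ * r ^ (n + 1)) * K * (K₂ * (ρ ^ (n + 1))⁻¹) := by
          gcongr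
          · exact hb1 n
          · exact hb2 n
      _ = _ := by rw [div_pow]; ring
  have hmain2 : ∀ (S : A) (K : ℝ), (∀ n : ℕ, ∃ N, ‖N‖ ≤ K ∧ T ^ n * S = N * T ^ n) →
      (P - 1) * S * P = 0 := by
    intro S K hS
    refine eq_zero_of_norm_le_geometric (c := K₁ * K * K₂) hq0 hq fun n => ?_
    obtain ⟨N, hN1, hN2⟩ := hS (n + 1)
    have h1 : (P - 1) * S * P = lc T ρ (-(n + 1 : ℕ)) * N * lc T r (n + 1 : ℕ) := by
      rw [← pow_mul_lc_zero hr hTr, ← hP, mul_assoc _ N, ← mul_assoc N, ← hN2, ← mul_assoc,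
        ← mul_assoc, lc_neg_mul_pow hρ hTρ, heq]
    have hK0 : 0 ≤ K := (norm_nonneg _).trans hN1
    calc ‖(P - 1) * S * P‖ ≤ ‖lc T ρ (-(n + 1 : ℕ))‖ * ‖N‖ * ‖lc T r (n + 1 : ℕ)‖ := by
          rw [h1]
          exact (norm_mul_le _ _).trans (by gcongr; exact norm_mul_le _ _)
      _ ≤ (K₂ * (ρ ^ (n + 1))⁻¹) * K * (K₁ * r ^ (n + 1)) := by
          gcongr
          · exact hb2 n
          · exact hb1 n
      _ = _ := by rw [div_pow]; ring
  refine ⟨P, ?_, fun S K h1 h2 => ?_, fun h1 μ hμ => ?_, fun h0 μ hμ => ?_⟩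
  · have := hmain1 1 1 fun n => ⟨1, by simp, by simp⟩
    rw [mul_one, mul_sub, mul_one, sub_eq_zero] at this
    exact this
  · have h3 := hmain1 S K h2
    have h4 := hmain2 S K h1
    rw [mul_sub, mul_one, sub_eq_zero] at h3
    rw [sub_mul, sub_mul, one_mul, sub_eq_zero] at h4
    rw [← h3, h4]
  · refine le_of_pow_le_mul_pow (c := K₁) hr.le fun n => ?_
    have h2 := spectrum.norm_le_norm_of_mem (spectrum.pow_mem_pow T (n + 1) hμ)
    have h3 := pow_mul_lc_zero hr hTr (n + 1)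
    rw [← hP, h1, mul_one] at h3
    rw [norm_pow, h3] at h2
    exact h2.trans (hb1 n)
  · refine le_of_pow_le_mul_pow (c := K₂) (norm_nonneg _) fun n => ?_
    have h2 := pow_mul_lc_neg hρ hTρ n
    have h3 := lc_neg_mul_pow hρ hTρ n
    rw [heq, h0, zero_sub] at h2 h3
    have h4 := one_le_of_mem_spectrum (v := -lc T ρ (-(n + 1 : ℕ)))
      (by rw [mul_neg, h2, neg_neg]) (by rw [neg_mul, h3, neg_neg])
      (spectrum.pow_mem_pow T (n + 1) hμ)
    rw [norm_neg, norm_pow] at h4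
    have h5 : 1 ≤ ‖μ‖ ^ (n + 1) * (K₂ * (ρ ^ (n + 1))⁻¹) := h4.trans (by gcongr; exact hb2 n)
    have h6 : 0 < ρ ^ (n + 1) := by positivity
    calc ρ ^ (n + 1) = 1 * ρ ^ (n + 1) := (one_mul _).symm
      _ ≤ ‖μ‖ ^ (n + 1) * (K₂ * (ρ ^ (n + 1))⁻¹) * ρ ^ (n + 1) := by gcongr
      _ = K₂ * ‖μ‖ ^ (n + 1) := by field_simp

end Pool.Agent.Lib.MP_0e93e1_an
end
end

-- part Pool.Agent.Lib.MP_0e93e1_an.Rot
section

/-!
Rotation invariance of the spectrum from an intertwining operator that is bounded below.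
-/

open Metric Set Filter Topology
open scoped Real

noncomputable section

namespace Pool.Agent.Lib.MP_0e93e1_an

variable {X : Type*} [NormedAddCommGroup X] [NormedSpace ℂ X]

/-- `μ - T` is bounded below by `c`. -/
def BB (T : X →L[ℂ] X) (μ : ℂ) (c : ℝ) : Prop := ∀ x, c * ‖x‖ ≤ ‖μ • x - T x‖

lemma BB.near {T : X →L[ℂ] X} {μ : ℂ} {c : ℝ} (h : BB T μ c) (ν : ℂ) :
    BB T ν (c - ‖ν - μ‖) := by
  intro x
  have h1 := h x
  have h2 : μ • x - T x = (ν • x - T x) - (ν - μ) • x := by rw [sub_smul]; abel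
  have h3 := norm_sub_le (ν • x - T x) ((ν - μ) • x)
  rw [← h2, norm_smul] at h3
  linarith

lemma algebraMap_sub_apply (T : X →L[ℂ] X) (μ : ℂ) (x : X) :
    (algebraMap ℂ (X →L[ℂ] X) μ - T) x = μ • x - T x := by
  simp [Algebra.algebraMap_eq_smul_one]

lemma exists_BB_of_resolvent {T : X →L[ℂ] X} {μ : ℂ} (h : μ ∈ resolventSet ℂ T) :
    ∃ c, 0 < c ∧ BB T μ c := by
  obtain ⟨u, hu⟩ := h
  set v : X →L[ℂ] X := ↑u⁻¹ with hv
  refine ⟨(‖v‖ + 1)⁻¹, by positivity, fun x => ?_⟩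
  have h1 : v (μ • x - T x) = x := by
    rw [← algebraMap_sub_apply, ← hu, ← mul_apply_eq_comp, hv, Units.inv_mul]
    rfl
  have h2 := v.le_opNorm (μ • x - T x)
  rw [h1] at h2
  rw [inv_mul_le_iff₀ (by positivity)]
  nlinarith [norm_nonneg (μ • x - T x)]

lemma BB.mem_resolvent [CompleteSpace X] {T : X →L[ℂ] X} {μ ν : ℂ} {c : ℝ} (h : BB T μ c)
    (hν : ν ∈ resolventSet ℂ T) (hd : ‖ν - μ‖ < c / 2) : μ ∈ resolventSet ℂ T := by
  obtain ⟨u, hu⟩ := hν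
  have hc : 0 < c / 2 := (norm_nonneg _).trans_lt hd
  have h1 : ‖(↑u⁻¹ : X →L[ℂ] X)‖ ≤ (c / 2)⁻¹ := by
    refine ContinuousLinearMap.opNorm_le_bound _ (by positivity) fun x => ?_
    have h2 := h.near ν ((↑u⁻¹ : X →L[ℂ] X) x)
    rw [← algebraMap_sub_apply, ← hu, ← mul_apply_eq_comp, Units.mul_inv] at h2
    rw [le_inv_mul_iff₀ hc]
    have h3 : (1 : X →L[ℂ] X) x = x := rfl
    rw [h3] at h2
    nlinarith [norm_nonneg ((↑u⁻¹ : X →L[ℂ] X) x)]
  have h2 : ‖(↑u⁻¹ : X →L[ℂ] X) * ((ν - μ) • (1 : X →L[ℂ] X))‖ < 1 := by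
    rw [mul_smul_comm, mul_one, norm_smul]
    calc ‖ν - μ‖ * ‖(↑u⁻¹ : X →L[ℂ] X)‖ ≤ ‖ν - μ‖ * (c / 2)⁻¹ := by gcongr
      _ < c / 2 * (c / 2)⁻¹ := by gcongr
      _ = 1 := mul_inv_cancel₀ hc.ne'
  have h3 : algebraMap ℂ (X →L[ℂ] X) μ - T =
      u * (1 - (↑u⁻¹ : X →L[ℂ] X) * ((ν - μ) • (1 : X →L[ℂ] X))) := by
    rw [mul_sub, mul_one, ← mul_assoc, Units.mul_inv, one_mul, hu, Algebra.algebraMap_eq_smul_one,
      Algebra.algebraMap_eq_smul_one, sub_smul]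
    abel
  rw [spectrum.mem_resolventSet_iff, h3]
  exact u.isUnit.mul (Units.oneSub _ h2).isUnit

lemma BB.of_intertwine {T M : X →L[ℂ] X} {ω μ : ℂ} {c c' : ℝ} (hω : ‖ω‖ = 1) (hc : 0 < c)
    (hc' : 0 < c') (hM : ∀ x, c * ‖x‖ ≤ ‖M x‖) (hTM : T * M = ω • (M * T))
    (h : BB T (ω * μ) c') : ∃ c'', 0 < c'' ∧ BB T μ c'' := by
  refine ⟨(‖M‖ + 1)⁻¹ * (c' * c), by positivity, fun x => ?_⟩
  have h1 := h (M x)
  have h2 : (ω * μ) • M x - T (M x) = ω • M (μ • x - T x) := by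
    rw [← mul_apply_eq_comp T M, hTM, map_sub, map_smul, smul_sub, smul_smul]
    rfl
  rw [h2, norm_smul, hω, one_mul] at h1
  have h3 := M.le_opNorm (μ • x - T x)
  have h4 := hM x
  rw [mul_assoc, inv_mul_le_iff₀ (by positivity)]
  have h5 : c' * (c * ‖x‖) ≤ c' * ‖M x‖ := by gcongr
  nlinarith [norm_nonneg (μ • x - T x)]

lemma mem_closure_pow {ω : ℂ} (hω : ‖ω‖ = 1) (hn : ∀ n : ℕ, 0 < n → ω ^ n ≠ 1) {ζ : ℂ}
    (hζ : ‖ζ‖ = 1) : ζ ∈ closure (range fun n : ℕ => ω ^ n) := by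
  have : Fact (0 < 2 * π) := ⟨Real.two_pi_pos⟩
  have hT : (2 * π : ℝ) ≠ 0 := Real.two_pi_pos.ne'
  let e := AddCircle.homeomorphCircle hT
  let w : Circle := ⟨ω, mem_sphere_zero_iff_norm.2 hω⟩
  let z : Circle := ⟨ζ, mem_sphere_zero_iff_norm.2 hζ⟩
  obtain ⟨a, ha⟩ := e.surjective w
  obtain ⟨b, hb⟩ := e.surjective z
  have hf : ∀ n : ℕ, ((AddCircle.toCircle (n • a) : Circle) : ℂ) = ω ^ n := by
    intro n
    rw [AddCircle.toCircle_nsmul, ← AddCircle.homeomorphCircle_apply hT, ha]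
    rfl
  have h0 : addOrderOf a = 0 := by
    rw [addOrderOf_eq_zero_iff']
    intro n hn0 h
    refine hn n hn0 ?_
    rw [← hf, h]
    simp
  have hd : DenseRange (· • a : ℕ → AddCircle (2 * π)) :=
    denseRange_zsmul_iff_nsmul.1 (AddCircle.denseRange_zsmul_iff.2 h0)
  have hc : Continuous fun x : AddCircle (2 * π) => ((AddCircle.toCircle x : Circle) : ℂ) :=
    continuous_subtype_val.comp AddCircle.continuous_toCircle
  have h1 := image_closure_subset_closure_image hc (mem_image_of_mem _ (hd b))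
  rw [← range_comp] at h1
  have h2 : ((AddCircle.toCircle b : Circle) : ℂ) = ζ := by
    rw [← AddCircle.homeomorphCircle_apply hT, hb]
  rw [h2] at h1
  convert h1 using 3 with n
  exact (funext hf).symm

/-- Rotation invariance of the spectrum. -/
theorem rotation_invariant [CompleteSpace X] {T M : X →L[ℂ] X} {ω : ℂ} {c : ℝ} (hω : ‖ω‖ = 1)
    (hn : ∀ n : ℕ, 0 < n → ω ^ n ≠ 1) (hc : 0 < c) (hM : ∀ x, c * ‖x‖ ≤ ‖M x‖)
    (hTM : T * M = ω • (M * T)) {μ ν : ℂ} (hμ : μ ∈ spectrum ℂ T) (hν : ‖ν‖ = ‖μ‖) :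
    ν ∈ spectrum ℂ T := by
  -- the approximate point spectrum
  set A : Set ℂ := {μ | ¬ ∃ c, 0 < c ∧ BB T μ c} with hA
  have hAσ : A ⊆ spectrum ℂ T := fun z hz hres => hz (exists_BB_of_resolvent hres)
  have hAcl : IsClosed A := by
    rw [← isOpen_compl_iff, Metric.isOpen_iff]
    intro z hz
    simp only [hA, mem_compl_iff, mem_ofPred_eq, not_not] at hz ⊢
    obtain ⟨c, hc, hz⟩ := hz
    refine ⟨c, hc, fun w hw => ?_⟩
    simp only [mem_compl_iff, mem_ofPred_eq, not_not]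
    exact ⟨_, sub_pos.2 (mem_ball_iff_norm.1 hw), hz.near w⟩
  have hAω : ∀ z ∈ A, ω * z ∈ A := by
    rintro z hz ⟨c', hc', h⟩
    exact hz (h.of_intertwine hω hc hc' hM hTM)
  have hAn : ∀ z ∈ A, ∀ n : ℕ, ω ^ n * z ∈ A := by
    intro z hz n
    induction n with
    | zero => simpa using hz
    | succ n ih => rw [pow_succ', mul_assoc]; exact hAω _ ih
  have hArot : ∀ z ∈ A, ∀ ζ : ℂ, ‖ζ‖ = 1 → ζ * z ∈ A := by
    intro z hz ζ hζ
    have h1 : IsClosed {ζ : ℂ | ζ * z ∈ A} := hAcl.preimage (by fun_prop)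
    refine h1.closure_subset_iff.2 ?_ (mem_closure_pow hω hn hζ)
    rintro _ ⟨n, rfl⟩
    exact hAn z hz n
  -- write `ν` as a rotation of `μ`
  obtain ⟨θ₀, hθ₀⟩ : ∃ θ : ℝ, ν = Complex.exp (θ * Complex.I) * μ := by
    rcases eq_or_ne μ 0 with rfl | h0
    · exact ⟨0, by simpa using hν⟩
    · have h1 : ‖ν / μ‖ = 1 := by rw [norm_div, hν, div_self (norm_ne_zero_iff.2 h0)]
      obtain ⟨θ, hθ⟩ := (Complex.norm_eq_one_iff _).1 h1
      exact ⟨θ, by rw [hθ, div_mul_cancel₀ _ h0]⟩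
  set f : ℝ → ℂ := fun θ => Complex.exp (θ * Complex.I) * μ with hf
  have hfc : Continuous f := by fun_prop
  by_cases hex : ∃ θ, f θ ∈ A
  · obtain ⟨θ, hθ⟩ := hex
    have := hArot _ hθ (Complex.exp ((θ₀ - θ : ℝ) * Complex.I)) (Complex.norm_exp_ofReal_mul_I _)
    refine hAσ ?_
    convert this using 1
    rw [hθ₀, hf, ← mul_assoc, ← Complex.exp_add]
    congr 2
    push_cast
    ring
  · push Not at hex
    have hclopen : IsClopen (f ⁻¹' spectrum ℂ T) := by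
      refine ⟨(spectrum.isClosed T).preimage hfc, ?_⟩
      rw [isOpen_iff_mem_nhds]
      intro θ hθ
      have h1 := hex θ
      simp only [hA, mem_ofPred_eq, not_not] at h1
      obtain ⟨c', hc', h1⟩ := h1
      have h2 : f ⁻¹' ball (f θ) (c' / 2) ∈ 𝓝 θ :=
        hfc.continuousAt.preimage_mem_nhds (ball_mem_nhds _ (by positivity))
      filter_upwards [h2] with θ' hθ' hres
      exact hθ (h1.mem_resolvent hres (mem_ball_iff_norm.1 hθ'))
    have h2 := hclopen.eq_univ ⟨0, by simpa [hf] using hμ⟩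
    have h3 : θ₀ ∈ f ⁻¹' spectrum ℂ T := h2 ▸ mem_univ _
    rw [hθ₀]
    exact h3

end Pool.Agent.Lib.MP_0e93e1_an
end
end
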