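import Pool.Agent.Lib.MP_0e93e1_an.Hardy
import Pool.Agent.Lib.MP_0e93e1_an.Rot

-- part Pool.Agent.Lib.MP_0e93e1_an.Main
section

/-!
The spectrum of a weighted composition operator with automorphic symbol, coefficient model.
-/

open Metric Set Filter Topology
open scoped Real ComplexConjugate

noncomputable section

namespace Pool.Agent.Lib.MP_0e93e1_an

/-- the multiplicative cocycle -/
def coc (ψ φ : ℂ → ℂ) (n : ℕ) (z : ℂ) : ℂ := ∏ k ∈ Finset.range n, ψ (φ^[k] z)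

lemma differentiableOn_iterate {φ : ℂ → ℂ} (hφ : DifferentiableOn ℂ φ D) (hm : MapsTo φ D D)
    (n : ℕ) : DifferentiableOn ℂ (φ^[n]) D := by
  induction n with
  | zero => exact differentiableOn_id
  | succ n ih =>
    rw [Function.iterate_succ']
    exact hφ.comp ih (hm.iterate n)

lemma differentiableOn_coc {ψ φ : ℂ → ℂ} (hψ : DifferentiableOn ℂ ψ D)
    (hφ : DifferentiableOn ℂ φ D) (hm : MapsTo φ D D) (n : ℕ) :
    DifferentiableOn ℂ (coc ψ φ n) D := by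
  unfold coc
  exact DifferentiableOn.fun_finsetProd fun k _ =>
    hψ.comp (differentiableOn_iterate hφ hm k) (hm.iterate k)

lemma norm_coc_le {ψ φ : ℂ → ℂ} {C : ℝ} (hC : ∀ z ∈ D, ‖ψ z‖ ≤ C) (hm : MapsTo φ D D) (n : ℕ) :
    ∀ z ∈ D, ‖coc ψ φ n z‖ ≤ C ^ n := by
  intro z hz
  rw [coc, norm_prod]
  refine (Finset.prod_le_prod (g := fun _ => C) (fun k _ => norm_nonneg _)
    (fun k _ => hC _ (hm.iterate k hz))).trans ?_
  simp

lemma norm_deriv_iterate {l a : ℂ} (hl : ‖l‖ = 1) (ha : ‖a‖ < 1) (n : ℕ) {z : ℂ} (hz : z ∈ D) :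
    ‖deriv ((mob l a)^[n]) z‖ = ‖coc (sk a) (mob l a) n z‖ ^ 2 := by
  have key : ∀ n : ℕ, ∃ d, HasDerivAt ((mob l a)^[n]) d z ∧
      ‖d‖ = ‖coc (sk a) (mob l a) n z‖ ^ 2 := by
    intro n
    induction n with
    | zero => exact ⟨1, hasDerivAt_id z, by simp [coc]⟩
    | succ n ih =>
      obtain ⟨d, hd1, hd2⟩ := ih
      have h1 := hasDerivAt_mob (l := l) ha (mem_D.1 ((mob_mapsTo hl ha).iterate n hz)).le
      refine ⟨_, by rw [Function.iterate_succ']; exact h1.comp z hd1, ?_⟩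
      rw [norm_mul, hd2, norm_deriv_mob hl ha, coc, coc, Finset.prod_range_succ, norm_mul]
      ring
  obtain ⟨d, hd1, hd2⟩ := key n
  rw [hd1.deriv, hd2]

lemma gelfand_real {A : Type*} [NormedRing A] [NormedAlgebra ℂ A] [CompleteSpace A] [Nontrivial A]
    (T : A) : ∃ μ ∈ spectrum ℂ T, (∀ ν ∈ spectrum ℂ T, ‖ν‖ ≤ ‖μ‖) ∧
      Tendsto (fun n : ℕ => ‖T ^ n‖ ^ (1 / n : ℝ)) atTop (𝓝 ‖μ‖) := by
  obtain ⟨μ, hμ, h⟩ := spectrum.exists_nnnorm_eq_spectralRadius T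
  refine ⟨μ, hμ, fun ν hν => ?_, ?_⟩
  · have h1 : (‖ν‖₊ : ENNReal) ≤ spectralRadius ℂ T := le_iSup₂_of_le ν hν le_rfl
    rw [← h] at h1
    exact_mod_cast h1
  · have h1 := spectrum.pow_norm_pow_one_div_tendsto_nhds_spectralRadius T
    rw [← h] at h1
    have h2 := (ENNReal.tendsto_toReal ENNReal.coe_ne_top).comp h1
    refine h2.congr fun n => ?_
    exact ENNReal.toReal_ofReal (by positivity)

instance : Nonempty D := ⟨⟨0, mem_D.2 (by simp)⟩⟩

lemma IsWC.norm_eq_iSup {M : L2 →L[ℂ] L2} {g : ℂ → ℂ} (h : IsWC M g (fun z => z))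
    (hg : DifferentiableOn ℂ g D) : ‖M‖ = ⨆ z : D, ‖g z‖ := by
  have hb : BddAbove (range fun z : D => ‖g z‖) := ⟨‖M‖, by
    rintro _ ⟨z, rfl⟩
    exact h.norm_apply_le z.2⟩
  refine le_antisymm (h.norm_le_of_mul hg fun z hz => le_ciSup hb ⟨z, hz⟩) ?_
  exact ciSup_le fun z => h.norm_apply_le z.2

lemma norm_le_one_of_isometry {U : L2 →L[ℂ] L2} (h : ∀ x, ‖U x‖ = ‖x‖) (n : ℕ) : ‖U ^ n‖ ≤ 1 := by
  have h1 : ‖U‖ ≤ 1 := U.opNorm_le_bound zero_le_one fun x => by simp [h]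
  exact (norm_pow_le U n).trans (pow_le_one₀ (norm_nonneg _) h1)

section setup

variable {l a : ℂ} (hl : ‖l‖ = 1) (ha : ‖a‖ < 1) {ψ : ℂ → ℂ} (hψ : DifferentiableOn ℂ ψ D)
  {C : ℝ} (hC : ∀ z ∈ D, ‖ψ z‖ ≤ C)
include hl ha hψ hC

/-- existence of the operator and the factorisation of its powers -/
lemma exists_factor : ∃ T : L2 →L[ℂ] L2, IsWC T ψ (mob l a) ∧ ∀ n : ℕ,
    ∃ (W V V' : L2 →L[ℂ] L2) (g : ℂ → ℂ), DifferentiableOn ℂ g D ∧ IsWC W g (fun z => z) ∧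
      ‖V‖ ≤ 1 ∧ ‖V'‖ ≤ 1 ∧ V * V' = 1 ∧ V' * V = 1 ∧ T ^ n = W * V ∧
      ∀ z ∈ D, ‖g z‖ = ‖coc ψ (mob l a) n z‖ / √‖deriv ((mob l a)^[n]) z‖ := by
  obtain ⟨U, U', hU, hU', hUU', hU'U, hUW⟩ := exists_unitary hl ha
  have hm := mob_mapsTo hl ha
  set w : ℂ → ℂ := fun z => ψ z * (sk a z)⁻¹ with hw
  have hwd : DifferentiableOn ℂ w D :=
    hψ.mul ((differentiableOn_sk ha).inv fun z hz => sk_ne_zero ha hz)
  have hC0 : 0 ≤ C := (norm_nonneg _).trans (hC 0 (mem_D.2 (by simp)))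
  have hwb : ∀ z ∈ D, ‖w z‖ ≤ C * (2 / √(1 - ‖a‖ ^ 2)) := by
    intro z hz
    rw [hw, norm_mul]
    gcongr
    · exact hC z hz
    · exact norm_sk_inv_le ha hz
  obtain ⟨M, -, hM⟩ := exists_mul hwd hwb
  have hT : IsWC (M * U) ψ (mob l a) :=
    (hM.mul hUW (fun _ hz => hz)).congr
      (fun z hz => inv_mul_cancel_right₀ (sk_ne_zero ha hz) _) (fun _ _ => rfl)
  refine ⟨M * U, hT, fun n => ?_⟩
  have hgd := differentiableOn_coc hwd (differentiableOn_mob (l := l) ha) hm n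
  obtain ⟨W, -, hW⟩ := exists_mul hgd (norm_coc_le hwb hm n)
  have hcomm : Commute U U' := hUU'.trans hU'U.symm
  have hprod : ∀ z ∈ D, coc w (mob l a) n z * coc (sk a) (mob l a) n z = coc ψ (mob l a) n z := by
    intro z hz
    rw [coc, coc, coc, ← Finset.prod_mul_distrib]
    exact Finset.prod_congr rfl fun k _ =>
      inv_mul_cancel_right₀ (sk_ne_zero ha (hm.iterate k hz)) _
  refine ⟨W, U ^ n, U' ^ n, _, hgd, hW, norm_le_one_of_isometry hU n,
    norm_le_one_of_isometry hU' n, ?_, ?_, ?_, fun z hz => ?_⟩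
  · rw [← hcomm.mul_pow, hUU', one_pow]
  · rw [← hcomm.symm.mul_pow, hU'U, one_pow]
  · exact (hT.pow hm n).unique (hW.mul (hUW.pow hm n) (fun _ hz => hz))
      (fun z hz => (hprod z hz).symm) (fun _ _ => rfl)
  · have h1 : coc (sk a) (mob l a) n z ≠ 0 :=
      Finset.prod_ne_zero_iff.2 fun k _ => sk_ne_zero ha (hm.iterate k hz)
    rw [norm_deriv_iterate hl ha n hz, Real.sqrt_sq (norm_nonneg _), ← hprod z hz, norm_mul,
      mul_div_cancel_right₀ _ (norm_ne_zero_iff.2 h1)]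

/-- The two radii. -/
lemma exists_radii {T : L2 →L[ℂ] L2} (hT : IsWC T ψ (mob l a)) :
    ∃ μ₁ ∈ spectrum ℂ T, ∃ μ₂ ∈ spectrum ℂ T,
      (∀ ν ∈ spectrum ℂ T, ‖μ₁‖ ≤ ‖ν‖ ∧ ‖ν‖ ≤ ‖μ₂‖) ∧
      Tendsto (fun n : ℕ => (⨅ z : D, ‖coc ψ (mob l a) n z‖ / √‖deriv ((mob l a)^[n]) z‖) ^
        (1 / n : ℝ)) atTop (𝓝 ‖μ₁‖) ∧
      Tendsto (fun n : ℕ => (⨆ z : D, ‖coc ψ (mob l a) n z‖ / √‖deriv ((mob l a)^[n]) z‖) ^
        (1 / n : ℝ)) atTop (𝓝 ‖μ₂‖) := by
  obtain ⟨T', hT', hfac⟩ := exists_factor hl ha hψ hC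
  obtain rfl : T = T' := hT.unique hT' (fun _ _ => rfl) (fun _ _ => rfl)
  obtain ⟨μ₂, hμ₂, hmax, hlim₂⟩ := gelfand_real T
  have hsup : ∀ n : ℕ, ‖T ^ n‖ =
      ⨆ z : D, ‖coc ψ (mob l a) n z‖ / √‖deriv ((mob l a)^[n]) z‖ := by
    intro n
    obtain ⟨W, V, V', g, hg, hW, hV, hV', hVV', -, hTn, hgn⟩ := hfac n
    have h1 : ‖T ^ n‖ = ‖W‖ := by
      refine le_antisymm ?_ ?_
      · rw [hTn]
        exact (norm_mul_le _ _).trans (mul_le_of_le_one_right (norm_nonneg _) hV)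
      · have : W = T ^ n * V' := by rw [hTn, mul_assoc, hVV', mul_one]
        rw [this]
        exact (norm_mul_le _ _).trans (mul_le_of_le_one_right (norm_nonneg _) hV')
    rw [h1, hW.norm_eq_iSup hg]
    exact iSup_congr fun z => hgn z z.2
  simp_rw [hsup] at hlim₂
  have hbdd : ∀ n : ℕ, BddBelow (range fun z : D =>
      ‖coc ψ (mob l a) n z‖ / √‖deriv ((mob l a)^[n]) z‖) := fun n => ⟨0, by
    rintro _ ⟨z, rfl⟩
    positivity⟩
  have hinv : ∀ n : ℕ, 0 < (⨅ z : D, ‖coc ψ (mob l a) n z‖ / √‖deriv ((mob l a)^[n]) z‖) →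
      ∃ N : L2 →L[ℂ] L2, T ^ n * N = 1 ∧ N * T ^ n = 1 ∧
        ‖N‖ ≤ (⨅ z : D, ‖coc ψ (mob l a) n z‖ / √‖deriv ((mob l a)^[n]) z‖)⁻¹ := by
    intro n hpos
    obtain ⟨W, V, V', g, hg, hW, hV, hV', hVV', hV'V, hTn, hgn⟩ := hfac n
    obtain ⟨N, hN1, hN2, hN3⟩ := hW.exists_inv hg hpos fun z hz => by
      rw [hgn z hz]
      exact ciInf_le (hbdd n) ⟨z, hz⟩
    refine ⟨V' * N, ?_, ?_, ?_⟩
    · rw [hTn, mul_assoc, ← mul_assoc V, hVV', one_mul, hN2]
    · rw [hTn, mul_assoc, ← mul_assoc N, hN3, one_mul, hV'V]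
    · exact (norm_mul_le _ _).trans ((mul_le_of_le_one_left (norm_nonneg _) hV').trans hN1)
  by_cases hu : IsUnit T
  · obtain ⟨u, rfl⟩ := hu
    obtain ⟨ν₀, hν₀, hmax', hlim₁⟩ := gelfand_real (↑u⁻¹ : L2 →L[ℂ] L2)
    have hν0 : ν₀ ≠ 0 := spectrum.ne_zero_of_mem_of_unit hν₀
    refine ⟨ν₀⁻¹, spectrum.inv₀_mem hν₀, μ₂, hμ₂, fun ν hν => ⟨?_, hmax ν hν⟩, ?_, hlim₂⟩
    · have h0 : ν ≠ 0 := spectrum.ne_zero_of_mem_of_unit hν
      have h1 := hmax' _ (spectrum.inv₀_mem_inv hν)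
      rw [norm_inv] at h1 ⊢
      exact inv_le_of_inv_le₀ (norm_pos_iff.2 h0) h1
    · have hinf : ∀ n : ℕ, (⨅ z : D, ‖coc ψ (mob l a) n z‖ / √‖deriv ((mob l a)^[n]) z‖) =
          ‖(↑u⁻¹ : L2 →L[ℂ] L2) ^ n‖⁻¹ := by
        intro n
        have e1 : (↑u : L2 →L[ℂ] L2) ^ n * (↑u⁻¹ : L2 →L[ℂ] L2) ^ n = 1 := by
          rw [← Units.val_pow_eq_pow_val, ← Units.val_pow_eq_pow_val, ← Units.val_mul, inv_pow,
            mul_inv_cancel, Units.val_one]
        have e2 : (↑u⁻¹ : L2 →L[ℂ] L2) ^ n * (↑u : L2 →L[ℂ] L2) ^ n = 1 := by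
          rw [← Units.val_pow_eq_pow_val, ← Units.val_pow_eq_pow_val, ← Units.val_mul, inv_pow,
            inv_mul_cancel, Units.val_one]
        have hpos : 0 < ‖(↑u⁻¹ : L2 →L[ℂ] L2) ^ n‖ := by
          rw [norm_pos_iff]
          intro h0
          rw [h0, mul_zero] at e1
          exact zero_ne_one e1
        have hge : ‖(↑u⁻¹ : L2 →L[ℂ] L2) ^ n‖⁻¹ ≤
            ⨅ z : D, ‖coc ψ (mob l a) n z‖ / √‖deriv ((mob l a)^[n]) z‖ := by
          obtain ⟨W, V, V', g, hg, hW, hV, hV', hVV', hV'V, hTn, hgn⟩ := hfac n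
          refine le_ciInf fun z => ?_
          have h1 := hW.one_le_of_inv (N := V * (↑u⁻¹ : L2 →L[ℂ] L2) ^ n)
            (by rw [← mul_assoc, ← hTn, e1]) z.2
          have h2 : ‖V * (↑u⁻¹ : L2 →L[ℂ] L2) ^ n‖ ≤ ‖(↑u⁻¹ : L2 →L[ℂ] L2) ^ n‖ :=
            (norm_mul_le _ _).trans (mul_le_of_le_one_left (norm_nonneg _) hV)
          rw [← hgn z z.2, inv_le_iff_one_le_mul₀ hpos]
          exact h1.trans (by gcongr)
        refine le_antisymm ?_ hge
        have hpos' := (inv_pos.2 hpos).trans_le hge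
        obtain ⟨N, hN1, -, hN3⟩ := hinv n hpos'
        have h1 : (↑u⁻¹ : L2 →L[ℂ] L2) ^ n = N := by
          rw [← mul_one ((↑u⁻¹ : L2 →L[ℂ] L2) ^ n), ← hN1, ← mul_assoc, e2, one_mul]
        rw [← h1] at hN3
        exact le_inv_of_le_inv₀ hpos hN3
      simp_rw [hinf, Real.inv_rpow (norm_nonneg _), norm_inv]
      exact hlim₁.inv₀ (norm_ne_zero_iff.2 hν0)
  · refine ⟨0, (spectrum.zero_mem_iff ℂ).2 hu, μ₂, hμ₂,
      fun ν hν => ⟨by simp, hmax ν hν⟩, ?_, hlim₂⟩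
    rw [norm_zero]
    refine tendsto_const_nhds.congr' ?_
    filter_upwards [eventually_gt_atTop 0] with n hn
    have h0 : (⨅ z : D, ‖coc ψ (mob l a) n z‖ / √‖deriv ((mob l a)^[n]) z‖) = 0 := by
      refine le_antisymm (not_lt.1 fun hpos => hu ?_) (le_ciInf fun z => by positivity)
      obtain ⟨N, hN1, hN2, -⟩ := hinv n hpos
      exact (isUnit_pow_iff hn.ne').1 ⟨⟨_, N, hN1, hN2⟩, rfl⟩
    rw [h0, Real.zero_rpow (by positivity)]

omit hψ hC in
lemma rotation {T : L2 →L[ℂ] L2} (hT : IsWC T ψ (mob l a))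
    (hinf : ∀ n : ℕ, 0 < n → ∃ z ∈ D, (mob l a)^[n] z ≠ z) {μ ν : ℂ} (hμ : μ ∈ spectrum ℂ T)
    (hν : ‖ν‖ = ‖μ‖) : ν ∈ spectrum ℂ T := by
  obtain ⟨h, ω, c, M, hω, hn, hc, hM, hMh, heig⟩ := hasEigen hl ha hinf
  refine rotation_invariant hω hn hc hM ?_ hμ hν
  refine (hT.mul hMh (mob_mapsTo hl ha)).unique ((hMh.mul hT (fun _ hz => hz)).smul ω)
    (fun z hz => ?_) (fun _ _ => rfl)
  simp only [heig z hz]
  ring

omit hψ hC in
lemma no_gap {T : L2 →L[ℂ] L2} (hT : IsWC T ψ (mob l a)) {r ρ : ℝ} (hr : 0 < r) (hrρ : r < ρ)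
    (hres : ∀ z : ℂ, r ≤ ‖z‖ → ‖z‖ ≤ ρ → z ∈ resolventSet ℂ T) :
    (∀ μ ∈ spectrum ℂ T, ‖μ‖ ≤ r) ∨ (∀ μ ∈ spectrum ℂ T, ρ ≤ ‖μ‖) := by
  obtain ⟨P, hP, hcomm, h1, h0⟩ := exists_riesz hr hrρ hres
  have hm := mob_mapsTo hl ha
  have hl' : ‖conj l‖ = 1 := by rwa [Complex.norm_conj]
  have ha' : ‖l * a‖ < 1 := by rwa [norm_mul, hl, one_mul]
  have hm' := mob_mapsTo hl' ha'
  obtain ⟨S, -, hS⟩ := exists_mul (g := fun z => z) differentiableOn_id (C := 1)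
    fun z hz => (mem_D.1 hz).le
  have hPS : P * S = S * P := by
    refine hcomm S 1 (fun n => ?_) (fun n => ?_)
    · obtain ⟨N, hN1, hN2⟩ := exists_mul
        (differentiableOn_iterate (differentiableOn_mob (l := l) ha) hm n) (C := 1)
        fun z hz => (mem_D.1 (hm.iterate n hz)).le
      refine ⟨N, hN1, ((hT.pow hm n).mul hS (hm.iterate n)).unique
        (hN2.mul (hT.pow hm n) (fun _ hz => hz)) (fun z _ => mul_comm _ _) (fun _ _ => rfl)⟩
    · obtain ⟨N, hN1, hN2⟩ := exists_mul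
        (differentiableOn_iterate (differentiableOn_mob (l := conj l) ha') hm' n) (C := 1)
        fun z hz => (mem_D.1 (hm'.iterate n hz)).le
      have hinv : ∀ k : ℕ, ∀ z ∈ D, (mob (conj l) (l * a))^[k] ((mob l a)^[k] z) = z := by
        intro k
        induction k with
        | zero => intro z _; rfl
        | succ k ih =>
          intro z hz
          rw [Function.iterate_succ_apply, Function.iterate_succ_apply',
            mob_mob hl ha (hm.iterate k hz), ih z hz]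
      refine ⟨N, hN1, (hS.mul (hT.pow hm n) (fun _ hz => hz)).unique
        ((hT.pow hm n).mul hN2 (hm.iterate n)) (fun z hz => ?_) (fun _ _ => rfl)⟩
      simp only [hinv n z hz]
      ring
  rcases idem_trivial hS hPS hP with h | h
  · exact Or.inr (h0 h)
  · exact Or.inl (h1 h)

theorem spectrum_infinite_order {T : L2 →L[ℂ] L2} (hT : IsWC T ψ (mob l a))
    (hinf : ∀ n : ℕ, 0 < n → ∃ z ∈ D, (mob l a)^[n] z ≠ z) :
    ∃ r R : ℝ,
      Tendsto (fun n : ℕ => (⨅ z : D, ‖coc ψ (mob l a) n z‖ / √‖deriv ((mob l a)^[n]) z‖) ^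
        (1 / n : ℝ)) atTop (𝓝 r) ∧
      Tendsto (fun n : ℕ => (⨆ z : D, ‖coc ψ (mob l a) n z‖ / √‖deriv ((mob l a)^[n]) z‖) ^
        (1 / n : ℝ)) atTop (𝓝 R) ∧
      spectrum ℂ T = {μ | r ≤ ‖μ‖ ∧ ‖μ‖ ≤ R} := by
  obtain ⟨μ₁, hμ₁, μ₂, hμ₂, hb, hlim₁, hlim₂⟩ := exists_radii hl ha hψ hC hT
  refine ⟨_, _, hlim₁, hlim₂, Subset.antisymm hb ?_⟩
  rintro μ ⟨h1, h2⟩
  by_contra hμ
  have h3 : ‖μ₁‖ < ‖μ‖ := lt_of_le_of_ne h1 fun h => hμ (rotation hl ha hT hinf hμ₁ h.symm)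
  have h4 : ((‖μ‖ : ℝ) : ℂ) ∈ resolventSet ℂ T := by
    by_contra h
    exact hμ (rotation hl ha hT hinf h (by simp))
  obtain ⟨ε, hε, hball⟩ := Metric.isOpen_iff.1 (spectrum.isOpen_resolventSet (𝕜 := ℂ) T) _ h4
  have h5 : 0 < ‖μ‖ := (norm_nonneg _).trans_lt h3
  obtain ⟨r, hr1, hr2⟩ := exists_between (max_lt h5 (sub_lt_self ‖μ‖ hε))
  have hr0 : 0 < r := (le_max_left _ _).trans_lt hr1
  have hr3 : ‖μ‖ - ε < r := (le_max_right _ _).trans_lt hr1
  rcases no_gap hl ha hT hr0 hr2 (fun z hz1 hz2 => by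
    by_contra h
    have h6 : ((‖z‖ : ℝ) : ℂ) ∈ spectrum ℂ T := rotation hl ha hT hinf h (by simp)
    refine h6 (hball ?_)
    rw [mem_ball, dist_eq_norm, ← Complex.ofReal_sub, Complex.norm_real, Real.norm_eq_abs, abs_lt]
    constructor <;> linarith) with h | h
  · linarith [h μ₂ hμ₂]
  · linarith [h μ₁ hμ₁]

omit hC in
theorem spectrum_finite_order {T : L2 →L[ℂ] L2} (hT : IsWC T ψ (mob l a)) {n : ℕ} (hn : 0 < n)
    (hid : ∀ z ∈ D, (mob l a)^[n] z = z)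
    (hmin : ∀ m : ℕ, 0 < m → m < n → ∃ z ∈ D, (mob l a)^[m] z ≠ z) :
    spectrum ℂ T = {μ | μ ^ n ∈ closure (coc ψ (mob l a) n '' D)} := by
  have hm := mob_mapsTo hl ha
  have hdφ := differentiableOn_mob (l := l) ha
  have hgd := differentiableOn_coc hψ hdφ hm n
  have hTn : IsWC (T ^ n) (coc ψ (mob l a) n) (fun z => z) :=
    (hT.pow hm n).congr (fun _ _ => rfl) hid
  refine Subset.antisymm (fun μ hμ => ?_) ?_
  · by_contra hcl
    have h1 := spectrum.pow_mem_pow T n hμ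
    obtain ⟨ε, hε, hball⟩ := Metric.isOpen_iff.1 isClosed_closure.isOpen_compl _ hcl
    have h2 : IsWC (algebraMap ℂ (L2 →L[ℂ] L2) (μ ^ n) - T ^ n)
        (fun z => μ ^ n - coc ψ (mob l a) n z) (fun z => z) := by
      intro x z hz
      rw [algebraMap_sub_apply, ev_sub _ _ hz, ev_smul, hTn x z hz, sub_mul]
    obtain ⟨N, -, hN1, hN2⟩ := h2.exists_inv ((differentiableOn_const _).sub hgd) hε
      (fun z hz => by
        by_contra hlt
        push Not at hlt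
        refine hball (a := coc ψ (mob l a) n z) ?_ (subset_closure (mem_image_of_mem _ hz))
        rw [mem_ball, dist_comm, dist_eq_norm]
        exact hlt)
    exact h1 ⟨⟨_, N, hN1, hN2⟩, rfl⟩
  · set D' : Set ℂ := {z | z ∈ D ∧ ∀ m : ℕ, 0 < m → m < n → (mob l a)^[m] z ≠ z} with hD'
    have hdense : D ⊆ closure D' := by
      intro z hz
      have h1 : ∀ᶠ w in 𝓝[≠] z, ∀ m ∈ Finset.Ioo 0 n, (mob l a)^[m] w ≠ w := by
        rw [Finset.eventually_all]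
        intro m hmn
        rw [Finset.mem_Ioo] at hmn
        by_contra hfr
        have hfr' : ∃ᶠ w in 𝓝[≠] z, (mob l a)^[m] w = id w := hfr
        obtain ⟨w, hw, hne⟩ := hmin m hmn.1 hmn.2
        exact hne (((differentiableOn_iterate hdφ hm m).analyticOnNhd
          isOpen_ball).eqOn_of_preconnected_of_frequently_eq analyticOnNhd_id
          (convex_ball (0 : ℂ) 1).isPreconnected hz hfr' hw)
      have h2 : ∀ᶠ w in 𝓝[≠] z, w ∈ D := mem_nhdsWithin_of_mem_nhds (isOpen_ball.mem_nhds hz)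
      have h3 : ∀ᶠ w in 𝓝[≠] z, w ∈ D' := by
        filter_upwards [h1, h2] with w hw1 hw2
        exact ⟨hw2, fun m h0 hlt => hw1 m (Finset.mem_Ioo.2 ⟨h0, hlt⟩)⟩
      exact mem_closure_iff_frequently.2 (h3.frequently.filter_mono nhdsWithin_le_nhds)
    have hcl : closure (coc ψ (mob l a) n '' D) ⊆ closure (coc ψ (mob l a) n '' D') := by
      refine closure_minimal ?_ isClosed_closure
      rintro _ ⟨z, hz, rfl⟩
      exact ((hgd.continuousOn z hz).mono fun w hw => hw.1).mem_closure_image (hdense hz)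
    have hpt : (fun μ : ℂ => μ ^ n) ⁻¹' (coc ψ (mob l a) n '' D') ⊆ spectrum ℂ T := by
      rintro μ ⟨z, ⟨hz, hper⟩, hμ⟩ hres
      simp only at hμ
      rcases eq_or_ne μ 0 with rfl | hμ0
      · have h1 : IsUnit T := (spectrum.zero_notMem_iff ℂ).1 (not_not.2 hres)
        obtain ⟨u, hu⟩ := h1.pow n
        have h2 := hTn.one_le_of_inv (N := ↑u⁻¹) (by rw [← hu, Units.mul_inv]) hz
        rw [hμ, zero_pow hn.ne'] at h2
        norm_num at h2
      · set c : ℕ → ℂ := fun j => coc ψ (mob l a) j z / μ ^ j with hc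
        have hL : ∀ x : L2, ∑ j ∈ Finset.range n,
            c j * ev (μ • x - T x) ((mob l a)^[j] z) = 0 := by
          intro x
          have h1 : ∀ j, c j * ev (μ • x - T x) ((mob l a)^[j] z) =
              μ * c j * ev x ((mob l a)^[j] z) -
                μ * c (j + 1) * ev x ((mob l a)^[j + 1] z) := by
            intro j
            rw [ev_sub _ _ (hm.iterate j hz), ev_smul, hT x _ (hm.iterate j hz),
              Function.iterate_succ_apply']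
            simp only [hc, coc, Finset.prod_range_succ]
            field_simp
            ring
          simp_rw [h1]
          rw [Finset.sum_range_sub' (fun j => μ * c j * ev x ((mob l a)^[j] z)), hid z hz]
          have h2 : c n = 1 := by simp only [hc, hμ]; exact div_self (pow_ne_zero _ hμ0)
          have h3 : c 0 = 1 := by simp [hc, coc]
          simp [h2, h3]
        set q : ℂ → ℂ := fun w => ∏ j ∈ Finset.Ioo 0 n, (w - (mob l a)^[j] z) with hq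
        have hqd : DifferentiableOn ℂ q D :=
          DifferentiableOn.fun_finsetProd fun j _ => by fun_prop
        have hqb : ∀ w ∈ D, ‖q w‖ ≤ ∏ _j ∈ Finset.Ioo 0 n, (2 : ℝ) := by
          intro w hw
          rw [hq, norm_prod]
          refine Finset.prod_le_prod (fun _ _ => norm_nonneg _) fun j _ => ?_
          linarith [norm_sub_le w ((mob l a)^[j] z), mem_D.1 hw, mem_D.1 (hm.iterate j hz)]
        obtain ⟨Q, -, hQ⟩ := exists_mul hqd hqb
        obtain ⟨u, hu⟩ := hres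
        have h1 := hL ((↑u⁻¹ : L2 →L[ℂ] L2) (Q e0))
        rw [← algebraMap_sub_apply, ← hu, ← mul_apply_eq_comp, Units.mul_inv,
          Finset.sum_eq_single 0] at h1
        · have h2 : ev (Q e0) z = q z := by rw [hQ e0 z hz, ev_e0, mul_one]
          have h3 : q z = 0 := by simpa [hc, coc, h2] using h1
          obtain ⟨j, hj, h4⟩ := Finset.prod_eq_zero_iff.1 h3
          rw [Finset.mem_Ioo] at hj
          exact hper j hj.1 hj.2 (sub_eq_zero.1 h4).symm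
        · intro j hj hj0
          have h2 : ev (Q e0) ((mob l a)^[j] z) = 0 := by
            rw [hQ e0 _ (hm.iterate j hz), ev_e0, mul_one]
            exact Finset.prod_eq_zero (i := j)
              (Finset.mem_Ioo.2 ⟨Nat.pos_of_ne_zero hj0, Finset.mem_range.1 hj⟩) (sub_self _)
          change c j * ev (Q e0) _ = 0
          rw [h2, mul_zero]
        · intro h0
          exact absurd (Finset.mem_range.2 hn) h0
    intro μ hμ
    have : NeZero n := ⟨hn.ne'⟩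
    exact closure_minimal hpt (spectrum.isClosed T)
      ((Complex.isOpenQuotientMap_pow n).isOpenMap.preimage_closure_subset_closure_preimage
        (hcl hμ))

end setup

end Pool.Agent.Lib.MP_0e93e1_an
end
end

-- part Pool.Agent.Lib.MP_0e93e1_an.Model
section

/-!
Any normed space of functions that realises the Hardy space is isometric to the coefficient model.
-/

open Metric Set Filter Topology
open scoped Real ComplexConjugate

noncomputable section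

namespace Pool.Agent.Lib.MP_0e93e1_an

lemma isLUB_mean {f : ℂ → ℂ} {a : L2} (h : ∀ z ∈ D, ev a z = f z) :
    IsLUB (mean f '' Ioo 0 1) (‖a‖ ^ 2) := by
  have h1 : ∀ r ∈ Ioo (0 : ℝ) 1, mean f r = av (ev a) r := fun r hr => by
    rw [mean_eq_av, av_congr h hr.1.le hr.2]
  constructor
  · rintro _ ⟨r, hr, rfl⟩
    rw [h1 r hr]
    exact av_ev_le a hr.1.le hr.2
  · intro b hb
    refine le_of_tendsto (tendsto_av_ev a) ?_
    filter_upwards [Ioo_mem_nhdsLT (zero_lt_one' ℝ)] with r hr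
    rw [← h1 r hr]
    exact hb ⟨r, hr, rfl⟩

variable {H : Type} [NormedAddCommGroup H] [NormedSpace ℂ H] (ι : H →ₗ[ℂ] (ℂ → ℂ))

lemma exists_equiv_model (hhol : ∀ f, DifferentiableOn ℂ (ι f) (ball 0 1))
    (hnorm : ∀ f, IsLUB (mean (ι f) '' Ioo 0 1) (‖f‖ ^ 2))
    (hsurj : ∀ g : ℂ → ℂ, DifferentiableOn ℂ g (ball 0 1) → BddAbove (mean g '' Ioo 0 1) →
      ∃ f, ∀ z ∈ ball (0 : ℂ) 1, ι f z = g z) :
    ∃ E : H ≃L[ℂ] L2, ∀ f : H, ∀ z ∈ D, ev (E f) z = ι f z := by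
  have h1 : ∀ f : H, ∃ a : L2, ∀ z ∈ D, ev a z = ι f z := fun f =>
    exists_coeff (hhol f) (hnorm f).bddAbove
  choose F hF using h1
  let L : H →ₗ[ℂ] L2 :=
    { toFun := F
      map_add' := fun f g => ext_ev fun z hz => by
        rw [ev_add _ _ hz, hF _ _ hz, hF _ _ hz, hF _ _ hz, map_add, Pi.add_apply]
      map_smul' := fun c f => ext_ev fun z hz => by
        rw [RingHom.id_apply, ev_smul, hF _ _ hz, hF _ _ hz, map_smul, Pi.smul_apply,
          smul_eq_mul] }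
  let I : H →ₗᵢ[ℂ] L2 :=
    { toLinearMap := L
      norm_map' := fun f => (pow_left_inj₀ (norm_nonneg _) (norm_nonneg _) two_ne_zero).1
        ((isLUB_mean (hF f)).unique (hnorm f)) }
  have hs : Function.Surjective I := by
    intro a
    have h3 := of_coeff (a := a) (f := ev a) fun _ _ => rfl
    obtain ⟨f, hf⟩ := hsurj (ev a) h3.1 h3.2
    exact ⟨f, ext_ev fun z hz => (hF _ z hz).trans (hf z hz)⟩
  exact ⟨(LinearIsometryEquiv.ofSurjective I hs).toContinuousLinearEquiv, hF⟩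

lemma transfer_model {E : H ≃L[ℂ] L2} (hE : ∀ f : H, ∀ z ∈ D, ev (E f) z = ι f z)
    {T : L2 →L[ℂ] L2} {w φ : ℂ → ℂ} (hφ : MapsTo φ D D) (hT : IsWC T w φ) :
    ∃ T' : H →L[ℂ] H, (∀ f : H, ∀ z ∈ ball (0 : ℂ) 1, ι (T' f) z = w z * ι f (φ z)) ∧
      spectrum ℂ T' = spectrum ℂ T := by
  refine ⟨E.symm.conjContinuousAlgEquiv T, fun f z hz => ?_, AlgEquiv.spectrum_eq _ _⟩
  rw [← hE _ z hz, ← hE f _ (hφ hz), ← hT _ z hz]
  simp

/-- The hypotheses describing a model of the Hardy space are satisfied by the Hardy space `H2`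
itself, so they are not vacuous. -/
theorem model_exists : ∃ (H : Type) (_ : NormedAddCommGroup H) (_ : NormedSpace ℂ H)
    (ι : H →ₗ[ℂ] (ℂ → ℂ)), (∀ f, DifferentiableOn ℂ (ι f) (ball 0 1)) ∧
    (∀ f, IsLUB (mean (ι f) '' Ioo 0 1) (‖f‖ ^ 2)) ∧
    (∀ g : ℂ → ℂ, DifferentiableOn ℂ g (ball 0 1) → BddAbove (mean g '' Ioo 0 1) →
      ∃ f, ∀ z ∈ ball (0 : ℂ) 1, ι f z = g z) := by
  refine ⟨H2, inferInstance, inferInstance, hardy.subtype, fun f => f.2.1, fun f => ?_,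
    fun g hg hb => ?_⟩
  · obtain ⟨a, ha⟩ := exists_coeff f.2.1 f.2.2.2
    have h1 : ‖f‖ = ‖a‖ := sqrt_sSup_mean ha
    rw [h1]
    exact isLUB_mean ha
  · obtain ⟨a, ha⟩ := exists_coeff hg hb
    have h2 : ∀ z ∈ D, ev a z = D.indicator g z := fun z hz =>
      (ha z hz).trans (indicator_of_mem hz _).symm
    have h3 := of_coeff h2
    exact ⟨⟨D.indicator g, h3.1, fun z hz => indicator_of_notMem hz _, h3.2⟩,
      fun z hz => indicator_of_mem hz _⟩

end Pool.Agent.Lib.MP_0e93e1_an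
end
end
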